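import Pool.Agent.Helper70.BI.H.StN

/-!
# Project BI, stage 3 (H), module N-CEN (helper99): centring of a crossing germ
-/

set_option autoImplicit false

open scoped Manifold ContDiff Topology ComplexConjugate
open Set Filter Pool.Agent.Helper65.Barb Pool.Agent.Helper18.BI

namespace Pool.Agent.Helper70.H

open Pool.Agent.Helper27.H (ArcD seg)
open Pool.Agent.Helper70.BI (I4 LD Eqv NearEq pc StPT StGL)

namespace CEN

/-- the vertical line through `z0` -/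
noncomputable def ln (s : ℝ) : R4 := (s, ((0 : ℝ), (0 : ℂ)))

theorem ln_half : ln (1 / 2) = z0 := rfl

theorem ln_zero (s : ℝ) : (ln s) = (s, (0 : ℝ × ℂ)) := rfl

theorem continuous_ln : Continuous ln := by
  unfold ln
  fun_prop

theorem hasDerivAt_ln (s : ℝ) : HasDerivAt ln ((1, 0) : R4) s :=
  HasDerivAt.prodMk (hasDerivAt_id s) (hasDerivAt_const s ((0 : ℝ), (0 : ℂ)))

theorem isCompact_seg (a b : ℝ) : IsCompact (seg a b) := by
  have h : seg a b = Icc a b ×ˢ {(0 : ℝ × ℂ)} := by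
    ext p
    simp only [seg, mem_ofPred_eq, mem_prod, mem_Icc, mem_singleton_iff]
    tauto
  rw [h]
  exact isCompact_Icc.prod isCompact_singleton

theorem ld_continuousAt {F : R4 → R4} {p : R4} (h : LD F p) : ContinuousAt F p :=
  (Pool.Agent.Helper70.BI.ld_iff.1 h).1.self_of_nhds.continuousAt

theorem ld_differentiableAt {F : R4 → R4} {p : R4} (h : LD F p) : DifferentiableAt ℝ F p :=
  (Pool.Agent.Helper70.BI.ld_iff.1 h).1.self_of_nhds.differentiableAt (by simp)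

/-- step (1) -/
theorem step1 {D : ArcD} {T : R4 → R4} {σ : ℝ → ℝ} {ε : ℝ} (h : StrA D T σ ε) :
    ∃ r : ℝ, 0 < r ∧ r < ε ∧ ∀ p ∈ Metric.ball z0 r, T p ∈ D.A → p.2 = 0 := by
  have hz : z0 ∈ Metric.ball z0 ε := Metric.mem_ball_self h.pos
  have hS : {s : ℝ | T (ln s) = D.J (σ s, 0) ∧ ln s ∈ Metric.ball z0 ε} ∈ 𝓝 (1 / 2 : ℝ) := by
    have h1 : ∀ᶠ s in 𝓝 (1 / 2 : ℝ), ln s ∈ Metric.ball z0 ε :=
      continuous_ln.continuousAt.eventually (Metric.isOpen_ball.mem_nhds (by rw [ln_half]; exact hz))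
    filter_upwards [h.str, h1] with s e1 e2
    exact ⟨e1, e2⟩
  have hσ : HasStrictDerivAt σ (deriv σ (1 / 2)) (1 / 2) := h.smooth.hasStrictDerivAt (by simp)
  have hO : σ '' {s : ℝ | T (ln s) = D.J (σ s, 0) ∧ ln s ∈ Metric.ball z0 ε} ∈ 𝓝 (σ (1 / 2)) := by
    rw [← hσ.map_nhds_eq h.dpos.ne']
    exact image_mem_map hS
  obtain ⟨O, hO1, hO2, hO3⟩ := mem_nhds_iff.1 hO
  have hcont : ContinuousOn D.J D.L := fun p hp => (ld_continuousAt (D.emb.1 p hp)).continuousWithinAt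
  have hK : IsCompact (D.J '' (D.L ∩ {p | p.1 ∉ O})) := by
    have h1 : IsClosed {p : R4 | p.1 ∉ O} := (hO2.preimage continuous_fst).isClosed_compl
    exact ((isCompact_seg _ _).inter_right h1).image_of_continuousOn (hcont.mono inter_subset_left)
  have hTz : T z0 = D.J (σ (1 / 2), 0) := h.str.self_of_nhds
  have hmem : ((σ (1 / 2), 0) : R4) ∈ D.L := ⟨h.lo.le, h.hi.le, rfl⟩
  have hnot : T z0 ∉ D.J '' (D.L ∩ {p | p.1 ∉ O}) := by
    rintro ⟨p, ⟨hp1, hp2⟩, hp3⟩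
    rw [hTz] at hp3
    have h1 := D.emb.2 hp1 hmem hp3
    apply hp2
    rw [h1]
    exact hO3
  have hev : ∀ᶠ p in 𝓝 z0, T p ∉ D.J '' (D.L ∩ {p | p.1 ∉ O}) :=
    (ld_continuousAt (h.loc z0 hz)).eventually (hK.isClosed.isOpen_compl.mem_nhds hnot)
  obtain ⟨r, hr, hr2⟩ := Metric.eventually_nhds_iff_ball.1 hev
  have hp := h.pos
  refine ⟨min r (ε / 2), lt_min hr (by linarith), lt_of_le_of_lt (min_le_right _ _) (by linarith), fun p hp1 hp2 => ?_⟩
  have hp3 : p ∈ Metric.ball z0 r := Metric.ball_subset_ball (min_le_left _ _) hp1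
  have hp4 : p ∈ Metric.ball z0 ε := Metric.ball_subset_ball ((min_le_right _ _).trans (by linarith)) hp1
  obtain ⟨q, hq, hqp⟩ := hp2
  have hqO : q.1 ∈ O := by
    by_contra hc
    exact hr2 p hp3 ⟨q, ⟨hq, hc⟩, hqp⟩
  obtain ⟨s, ⟨hs1, hs2⟩, hs3⟩ := hO1 hqO
  have hq2 : q = ((σ s, 0) : R4) := Prod.ext hs3.symm hq.2.2
  have h1 : T p = T (ln s) := by rw [hs1, ← hqp, hq2]
  rw [h.inj hp4 hs2 h1]
  rfl

/-- the translation -/
theorem ld_tr (a : ℝ) (p : R4) :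
    LD (fun p : R4 => ((a + (p.1 - 1 / 2), p.2) : R4)) p ∧
      fderiv ℝ (fun p : R4 => ((a + (p.1 - 1 / 2), p.2) : R4)) p = ContinuousLinearMap.id ℝ R4 := by
  have e : (fun p : R4 => ((a + (p.1 - 1 / 2), p.2) : R4)) = fun p => p + ((a - 1 / 2, 0) : R4) := by
    funext p
    refine Prod.ext ?_ ?_
    · show a + (p.1 - 1 / 2) = p.1 + (a - 1 / 2)
      ring
    · show p.2 = p.2 + 0
      rw [add_zero]
  have h1 : HasFDerivAt (fun p : R4 => p + ((a - 1 / 2, 0) : R4)) (ContinuousLinearMap.id ℝ R4) p :=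
    (hasFDerivAt_id p).add_const _
  rw [e]
  refine ⟨Pool.Agent.Helper70.BI.ld_iff.2 ⟨Eventually.of_forall fun q => ?_, ?_⟩, h1.fderiv⟩
  · exact (contDiff_id.add contDiff_const).contDiffAt
  · rw [h1.fderiv]
    exact Function.injective_id

end CEN

open CEN in
/-- **MODULE N-CEN** -/
theorem m_CEN (hLOCL : StLOCL) : StCEN := by
  intro D T σ ε hA
  obtain ⟨r, hr, hrε, hr1⟩ := step1 hA
  have hz : z0 ∈ Metric.ball z0 ε := Metric.mem_ball_self hA.pos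
  have hT := hA.loc z0 hz
  have hTz : T z0 = D.J (σ (1 / 2), 0) := hA.str.self_of_nhds
  have hmem : ((σ (1 / 2), 0) : R4) ∈ D.L := ⟨hA.lo.le, hA.hi.le, rfl⟩
  obtain ⟨f, hf⟩ : ∃ f : R4 → R4, f = hT.localInverse := ⟨_, rfl⟩
  have hfl : LD f (T z0) := by rw [hf]; exact hT.localInverse_isLocalDiffeomorphAt
  have hright : T ∘ f =ᶠ[𝓝 (T z0)] id := by rw [hf]; exact hT.localInverse_eventuallyEq_right
  have hleft : f ∘ T =ᶠ[𝓝 z0] id := by rw [hf]; exact hT.localInverse_eventuallyEq_left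
  have hfz : f (T z0) = z0 := hleft.self_of_nhds
  -- the translate of `D.J`
  obtain ⟨g, hg⟩ : ∃ g : R4 → R4, g = fun p => D.J (σ (1 / 2) + (p.1 - 1 / 2), p.2) := ⟨_, rfl⟩
  obtain ⟨htr1, htr2⟩ := ld_tr (σ (1 / 2)) z0
  have htrz : (fun p : R4 => ((σ (1 / 2) + (p.1 - 1 / 2), p.2) : R4)) z0 = ((σ (1 / 2), 0) : R4) := by
    refine Prod.ext ?_ rfl
    show σ (1 / 2) + (1 / 2 - 1 / 2) = σ (1 / 2)
    ring
  have hJ : LD D.J ((fun p : R4 => ((σ (1 / 2) + (p.1 - 1 / 2), p.2) : R4)) z0) := by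
    rw [htrz]; exact D.emb.1 _ hmem
  have hgl : LD g z0 := by
    rw [hg]
    exact Pool.Agent.Helper70.BI.ld_comp htr1 hJ
  have hgz : g z0 = T z0 := by
    rw [hg, hTz]
    exact congrArg D.J htrz
  have hgd : fderiv ℝ g z0 = fderiv ℝ D.J (σ (1 / 2), 0) := by
    have h1 : g = D.J ∘ (fun p : R4 => ((σ (1 / 2) + (p.1 - 1 / 2), p.2) : R4)) := hg
    have h2 : ((σ (1 / 2) + ((z0 : R4).1 - 1 / 2), (z0 : R4).2) : R4) = ((σ (1 / 2), 0) : R4) := htrz
    rw [h1, fderiv_comp z0 (ld_differentiableAt hJ) (ld_differentiableAt htr1), htr2, ContinuousLinearMap.comp_id, h2]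
  -- the germ `h`
  obtain ⟨h, hh⟩ : ∃ h : R4 → R4, h = f ∘ g := ⟨_, rfl⟩
  have hhl : LD h z0 := by
    rw [hh]
    exact Pool.Agent.Helper70.BI.ld_comp hgl (by rw [hgz]; exact hfl)
  have hhz : h z0 = z0 := by
    rw [hh]
    show f (g z0) = z0
    rw [hgz, hfz]
  have hTh : T ∘ h =ᶠ[𝓝 z0] g := by
    have h1 : ∀ᶠ p in 𝓝 z0, (T ∘ f) (g p) = id (g p) := by
      have h2 : ContinuousAt g z0 := ld_continuousAt hgl
      have h3 : ∀ᶠ y in 𝓝 (g z0), (T ∘ f) y = id y := by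
        rw [hgz]
        exact hright
      exact h2.eventually h3
    filter_upwards [h1] with p hp
    rw [hh]
    exact hp
  have hdh : DifferentiableAt ℝ h z0 := ld_differentiableAt hhl
  have hdet : 0 < (fderiv ℝ h z0).det := by
    have h1 : fderiv ℝ (T ∘ h) z0 = (fderiv ℝ T (h z0)).comp (fderiv ℝ h z0) :=
      fderiv_comp z0 (by rw [hhz]; exact ld_differentiableAt hT) hdh
    rw [hTh.fderiv_eq, hgd, hhz] at h1
    have h2 : (fderiv ℝ D.J (σ (1 / 2), 0)).det = (fderiv ℝ T z0).det * (fderiv ℝ h z0).det := by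
      rw [h1]
      exact LinearMap.det_comp (fderiv ℝ T z0 : R4 →ₗ[ℝ] R4) (fderiv ℝ h z0 : R4 →ₗ[ℝ] R4)
    have h3 := hA.orient
    rw [h2] at h3
    have h4 : 0 < ((fderiv ℝ T z0).det) ^ 2 * (fderiv ℝ h z0).det := by
      have e : ((fderiv ℝ T z0).det) ^ 2 * (fderiv ℝ h z0).det =
        (fderiv ℝ T z0).det * ((fderiv ℝ T z0).det * (fderiv ℝ h z0).det) := by ring
      rw [e]; exact h3
    exact (pos_iff_pos_of_mul_pos h4).1 (by
      rcases (sq_nonneg ((fderiv ℝ T z0).det)).lt_or_eq with h5 | h5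
      · exact h5
      · rw [← h5, zero_mul] at h4
        exact absurd h4 (lt_irrefl _))
  -- the line condition
  have hhc : ContinuousAt h z0 := hdh.continuousAt
  have hev1 : ∀ᶠ p in 𝓝 z0, h p ∈ Metric.ball z0 r :=
    hhc.eventually (Metric.isOpen_ball.mem_nhds (by rw [hhz]; exact Metric.mem_ball_self hr))
  have hev2 : ∀ᶠ p : R4 in 𝓝 z0, σ (1 / 2) + (p.1 - 1 / 2) ∈ Ioo D.s₀ D.s₁ := by
    have h1 : ContinuousAt (fun p : R4 => σ (1 / 2) + (p.1 - 1 / 2)) z0 := by fun_prop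
    refine h1.eventually (isOpen_Ioo.mem_nhds ?_)
    have h2 : σ (1 / 2) + ((z0 : R4).1 - 1 / 2) = σ (1 / 2) := by
      show σ (1 / 2) + (1 / 2 - 1 / 2) = σ (1 / 2)
      ring
    show σ (1 / 2) + ((z0 : R4).1 - 1 / 2) ∈ Ioo D.s₀ D.s₁
    rw [h2]
    exact ⟨hA.lo, hA.hi⟩
  have hline : ∀ᶠ p in 𝓝 z0, p.2 = 0 → (h p).2 = 0 := by
    filter_upwards [hev1, hev2, hTh] with p e1 e2 e3 hp
    apply hr1 (h p) e1
    have e4 : T (h p) = g p := e3
    rw [e4, hg]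
    exact ⟨((σ (1 / 2) + (p.1 - 1 / 2), p.2) : R4), ⟨e2.1.le, e2.2.le, hp⟩, rfl⟩
  -- the derivative along the line
  have hpos : 0 < (fderiv ℝ h z0 (1, 0)).1 := by
    have hκd : HasDerivAt (fun s => (h (ln s)).1) ((fderiv ℝ h z0 (1, 0)).1) (1 / 2) := by
      have h1 : HasDerivAt (fun s => h (ln s)) (fderiv ℝ h z0 (1, 0)) (1 / 2) :=
        HasFDerivAt.comp_hasDerivAt (1 / 2) (by rw [ln_half]; exact hdh.hasFDerivAt) (hasDerivAt_ln _)
      exact (hasFDerivAt_fst (𝕜 := ℝ) (p := h (ln (1 / 2)))).comp_hasDerivAt (1 / 2) h1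
    have hκ : (fun s => (h (ln s)).1) (1 / 2) = 1 / 2 := by
      show (h (ln (1 / 2))).1 = 1 / 2
      rw [ln_half, hhz]
      rfl
    have hσd : HasDerivAt σ (deriv σ (1 / 2)) ((fun s => (h (ln s)).1) (1 / 2)) := by
      rw [hκ]
      exact (hA.smooth.differentiableAt (by simp)).hasDerivAt
    have hcomp := HasDerivAt.comp (1 / 2 : ℝ) hσd hκd
    have hln : Tendsto ln (𝓝 (1 / 2)) (𝓝 z0) := continuous_ln.tendsto (1 / 2)
    have hκt : Tendsto (fun s => (h (ln s)).1) (𝓝 (1 / 2)) (𝓝 (1 / 2)) := by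
      have h1 : Tendsto (fun s => (h (ln s)).1) (𝓝 (1 / 2)) (𝓝 ((h (ln (1 / 2))).1)) :=
        hκd.continuousAt.tendsto
      have h2 : (h (ln (1 / 2))).1 = 1 / 2 := hκ
      rw [h2] at h1
      exact h1
    have hσt : Tendsto (fun s => σ ((h (ln s)).1)) (𝓝 (1 / 2)) (𝓝 (σ (1 / 2))) :=
      hA.smooth.continuousAt.tendsto.comp hκt
    have heq : (σ ∘ fun s => (h (ln s)).1) =ᶠ[𝓝 (1 / 2)] fun s => σ (1 / 2) + (s - 1 / 2) := by
      filter_upwards [hln.eventually hline, hln.eventually hTh, hκt.eventually hA.str, hln.eventually hev2,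
        hσt.eventually (isOpen_Ioo.mem_nhds ⟨hA.lo, hA.hi⟩)] with s e1 e2 e3 e4 e5
      have e6 : (h (ln s)).2 = 0 := e1 rfl
      have e7 : h (ln s) = ln ((h (ln s)).1) := Prod.ext rfl e6
      have e8 : T (h (ln s)) = g (ln s) := e2
      have e9 : T (ln ((h (ln s)).1)) = D.J (σ ((h (ln s)).1), 0) := e3
      have e10 : T (h (ln s)) = T (ln ((h (ln s)).1)) := congrArg T e7
      rw [e8, hg, e9] at e10
      have m1 : ((σ (1 / 2) + ((ln s).1 - 1 / 2), (ln s).2) : R4) ∈ D.L := ⟨e4.1.le, e4.2.le, rfl⟩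
      have m2 : ((σ ((h (ln s)).1), 0) : R4) ∈ D.L := ⟨e5.1.le, e5.2.le, rfl⟩
      have e11 := D.emb.2 m1 m2 e10
      exact (congrArg Prod.fst e11).symm
    have hd2 : HasDerivAt (fun s : ℝ => σ (1 / 2) + (s - 1 / 2)) 1 (1 / 2) :=
      ((hasDerivAt_id (1 / 2 : ℝ)).sub_const (1 / 2)).const_add _
    have hu := hcomp.unique (hd2.congr_of_eventuallyEq heq)
    have h6 : 0 < deriv σ (1 / 2) * (fderiv ℝ h z0 (1, 0)).1 := by rw [hu]; norm_num
    exact (pos_iff_pos_of_mul_pos h6).1 hA.dpos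
  obtain ⟨G, hG0, hGs, hGl, hG1⟩ := hLOCL (Metric.ball z0 r) z0 h Metric.isOpen_ball
    (Metric.mem_ball_self hr) rfl hhl hhz hline hpos hdet
  refine ⟨G, r, hr, hrε, hG0, hGs, hGl, hr1, ?_⟩
  filter_upwards [hG1, hTh] with p e1 e2
  rw [e1]
  have e3 : T (h p) = g p := e2
  rw [e3, hg]

end Pool.Agent.Helper70.H
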