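import Pool.Agent.Helper70.BI.H.StN

/-!
# Project BI, stage 3 (H), section NORM, module GLL: linear maps which preserve the line
-/

set_option autoImplicit false

open scoped Manifold ContDiff Topology ComplexConjugate
open Set Filter Pool.Agent.Helper65.Barb Pool.Agent.Helper18.BI

namespace Pool.Agent.Helper70.H

open Pool.Agent.Helper27.H (ArcD seg)
open Pool.Agent.Helper70.BI (I4 LD Eqv NearEq pc StPT StGL)

namespace GLL

/-- the linear germ of `A` is realized near every point of the line -/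
def Pg (A : R4 →L[ℝ] R4) : Prop :=
  ∀ (U : Set R4) (z : R4), IsOpen U → z ∈ U → z.2 = 0 → RealL U z (fun y => z + A (y - z))

theorem realL_comp {U : Set R4} {y₀ : R4} {f₁ f₂ : R4 → R4} (h₁ : RealL U y₀ f₁)
    (h₂ : RealL U (f₁ y₀) f₂) (hc : ContinuousAt f₁ y₀) : RealL U y₀ (fun y => f₂ (f₁ y)) := by
  obtain ⟨G₁, a₁, ⟨C₁, c₁, s₁, t₁⟩, l₁, e₁⟩ := h₁
  obtain ⟨G₂, a₂, ⟨C₂, c₂, s₂, t₂⟩, l₂, e₂⟩ := h₂
  refine ⟨G₂.comp G₁, ?_, ⟨C₁ ∪ C₂, c₁.union c₂, union_subset s₁ s₂, ?_⟩, ?_, ?_⟩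
  · intro y
    change G₂.f (0, G₁.f (0, y)) = y
    rw [a₁, a₂]
  · intro t y hy
    rw [mem_union, not_or] at hy
    change G₂.f (t, G₁.f (t, y)) = y
    rw [t₁ t y hy.1, t₂ t y hy.2]
  · intro t y
    change (G₂.f (t, G₁.f (t, y))).2 = 0 ↔ y.2 = 0
    rw [l₂, l₁]
  · filter_upwards [e₁, hc.eventually e₂] with y h3 h4
    change G₂.f (1, G₁.f (1, y)) = f₂ (f₁ y)
    rw [h3, h4]

theorem pg_comp {A B : R4 →L[ℝ] R4} (hA : Pg A) (hB : Pg B) : Pg (A.comp B) := by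
  intro U z hU hz hz2
  have e1 : (fun y : R4 => z + B (y - z)) z = z := by simp
  have h2 : RealL U ((fun y : R4 => z + B (y - z)) z) (fun y => z + A (y - z)) := by
    rw [e1]; exact hA U z hU hz hz2
  have hc : ContinuousAt (fun y : R4 => z + B (y - z)) z := by fun_prop
  have h3 := realL_comp (hB U z hU hz hz2) h2 hc
  have e2 : (fun y : R4 => (fun y => z + A (y - z)) ((fun y : R4 => z + B (y - z)) y)) =
      fun y => z + (A.comp B) (y - z) := by
    funext y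
    simp
  rw [e2] at h3
  exact h3

theorem pg_near (hSML : StSML) : ∃ c : ℝ, 0 < c ∧ ∀ A : R4 →L[ℝ] R4,
    (∀ s : ℝ, (A (s, 0)).2 = 0) → ‖A - ContinuousLinearMap.id ℝ R4‖ < c → Pg A := by
  obtain ⟨c, hc, h⟩ := hSML
  refine ⟨c, hc, fun A hl hA U z hU hz hz2 => ?_⟩
  apply h U z _ hU hz
  · refine Filter.Eventually.of_forall fun y => ?_
    exact (contDiff_const.add (A.contDiff.comp (contDiff_id.sub contDiff_const))).contDiffAt
  · simp
  · refine Filter.Eventually.of_forall fun y hy => ?_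
    have e : y - z = (y.1 - z.1, 0) := by
      refine Prod.ext rfl ?_
      change y.2 - z.2 = 0
      rw [hy, hz2, sub_zero]
    have h1 := hl (y.1 - z.1)
    change z.2 + (A (y - z)).2 = 0
    rw [e, h1, hz2, add_zero]
  · have e3 : HasFDerivAt (fun y : R4 => z + A (y - z)) A z := by
      have h4 : HasFDerivAt (fun y : R4 => y - z) (ContinuousLinearMap.id ℝ R4) z :=
        (hasFDerivAt_id z).sub_const z
      have h5 : HasFDerivAt (fun y : R4 => A (y - z)) (A.comp (ContinuousLinearMap.id ℝ R4)) z :=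
        HasFDerivAt.comp (g := fun y : R4 => A y) (f := fun y : R4 => y - z) z
          (A.hasFDerivAt (x := z - z)) h4
      rw [ContinuousLinearMap.comp_id] at h5
      exact h5.const_add z
    rw [e3.fderiv]
    exact hA

/-- block diagonal maps -/
noncomputable def DD (a : ℝ →L[ℝ] ℝ) (M : R3 →L[ℝ] R3) : R4 →L[ℝ] R4 := a.prodMap M

theorem DD_apply (a : ℝ →L[ℝ] ℝ) (M : R3 →L[ℝ] R3) (y : R4) : DD a M y = (a y.1, M y.2) := rfl

theorem DD_comp (a b : ℝ →L[ℝ] ℝ) (M N : R3 →L[ℝ] R3) :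
    (DD a M).comp (DD b N) = DD (a.comp b) (M.comp N) := rfl

/-- the shears -/
noncomputable def SS (l : R3 →L[ℝ] ℝ) : R4 →L[ℝ] R4 :=
  ContinuousLinearMap.id ℝ R4 +
    (ContinuousLinearMap.inl ℝ ℝ R3).comp (l.comp (ContinuousLinearMap.snd ℝ ℝ R3))

theorem SS_apply (l : R3 →L[ℝ] ℝ) (y : R4) : SS l y = (y.1 + l y.2, y.2) := by
  refine Prod.ext rfl ?_
  change y.2 + 0 = y.2
  exact add_zero _

theorem SS_comp (l m : R3 →L[ℝ] ℝ) : (SS l).comp (SS m) = SS (l + m) := by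
  refine ContinuousLinearMap.ext fun y => ?_
  rw [ContinuousLinearMap.comp_apply, SS_apply, SS_apply, SS_apply]
  refine Prod.ext ?_ rfl
  change y.1 + m y.2 + l y.2 = y.1 + (l + m) y.2
  rw [add_apply]
  ring

theorem norm_DD_left (M : R3 →L[ℝ] R3) :
    ‖DD (ContinuousLinearMap.id ℝ ℝ) M - ContinuousLinearMap.id ℝ R4‖ ≤
      ‖M - ContinuousLinearMap.id ℝ R3‖ := by
  refine ContinuousLinearMap.opNorm_le_bound _ (norm_nonneg _) fun y => ?_
  have e : (DD (ContinuousLinearMap.id ℝ ℝ) M - ContinuousLinearMap.id ℝ R4) y =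
      (0, (M - ContinuousLinearMap.id ℝ R3) y.2) := by
    refine Prod.ext ?_ rfl
    change y.1 - y.1 = 0
    exact sub_self _
  rw [e, Prod.norm_def]
  refine max_le ?_ ?_
  · rw [norm_zero]; positivity
  · exact (ContinuousLinearMap.le_opNorm _ _).trans
      (mul_le_mul_of_nonneg_left (norm_snd_le y) (norm_nonneg _))

theorem norm_DD_right (a : ℝ →L[ℝ] ℝ) :
    ‖DD a (ContinuousLinearMap.id ℝ R3) - ContinuousLinearMap.id ℝ R4‖ ≤
      ‖a - ContinuousLinearMap.id ℝ ℝ‖ := by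
  refine ContinuousLinearMap.opNorm_le_bound _ (norm_nonneg _) fun y => ?_
  have e : (DD a (ContinuousLinearMap.id ℝ R3) - ContinuousLinearMap.id ℝ R4) y =
      ((a - ContinuousLinearMap.id ℝ ℝ) y.1, 0) := by
    refine Prod.ext rfl ?_
    change y.2 - y.2 = 0
    exact sub_self _
  rw [e, Prod.norm_def]
  refine max_le ?_ ?_
  · exact (ContinuousLinearMap.le_opNorm _ _).trans
      (mul_le_mul_of_nonneg_left (norm_fst_le y) (norm_nonneg _))
  · rw [norm_zero]; positivity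

theorem norm_SS (l : R3 →L[ℝ] ℝ) : ‖SS l - ContinuousLinearMap.id ℝ R4‖ ≤ ‖l‖ := by
  refine ContinuousLinearMap.opNorm_le_bound _ (norm_nonneg _) fun y => ?_
  have e : (SS l - ContinuousLinearMap.id ℝ R4) y = (l y.2, 0) := by
    rw [sub_apply, SS_apply]
    refine Prod.ext ?_ ?_
    · change y.1 + l y.2 - y.1 = l y.2
      ring
    · change y.2 - y.2 = 0
      exact sub_self _
  rw [e, Prod.norm_def]
  refine max_le ?_ ?_
  · exact (ContinuousLinearMap.le_opNorm _ _).trans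
      (mul_le_mul_of_nonneg_left (norm_snd_le y) (norm_nonneg _))
  · rw [norm_zero]; positivity

theorem pg_left (hSML : StSML) (hGL : StGL) (M : R3 →L[ℝ] R3) (hM : 0 < M.det) :
    Pg (DD (ContinuousLinearMap.id ℝ ℝ) M) := by
  obtain ⟨c, hc, h⟩ := pg_near hSML
  refine hGL R3 (fun M => Pg (DD (ContinuousLinearMap.id ℝ ℝ) M)) ?_ ⟨c, hc, ?_⟩ M hM
  · intro A B hA hB
    have h1 := pg_comp hA hB
    rw [DD_comp, ContinuousLinearMap.comp_id] at h1
    exact h1
  · intro A hA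
    refine h _ (fun s => ?_) (lt_of_le_of_lt (norm_DD_left A) hA)
    rw [DD_apply]
    exact map_zero A

theorem pg_right (hSML : StSML) (hGL : StGL) (a : ℝ →L[ℝ] ℝ) (ha : 0 < a.det) :
    Pg (DD a (ContinuousLinearMap.id ℝ R3)) := by
  obtain ⟨c, hc, h⟩ := pg_near hSML
  refine hGL ℝ (fun a => Pg (DD a (ContinuousLinearMap.id ℝ R3))) ?_ ⟨c, hc, ?_⟩ a ha
  · intro A B hA hB
    have h1 := pg_comp hA hB
    rw [DD_comp, ContinuousLinearMap.comp_id] at h1
    exact h1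
  · intro A hA
    refine h _ (fun s => ?_) (lt_of_le_of_lt (norm_DD_right A) hA)
    rw [DD_apply]
    rfl

theorem pg_SS (hSML : StSML) (l : R3 →L[ℝ] ℝ) : Pg (SS l) := by
  obtain ⟨c, hc, h⟩ := pg_near hSML
  obtain ⟨n, hn⟩ := exists_nat_gt (‖l‖ / c)
  have hn0 : 0 < (n : ℝ) := lt_of_le_of_lt (by positivity) hn
  have hl : ∀ (m : R3 →L[ℝ] ℝ) (s : ℝ), (SS m (s, 0)).2 = 0 := fun m s => by
    rw [SS_apply]
  have h1 : Pg (SS ((1 / (n : ℝ)) • l)) := by
    refine h _ (hl _) (lt_of_le_of_lt (norm_SS _) ?_)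
    rw [norm_smul, Real.norm_of_nonneg (by positivity), one_div, inv_mul_eq_div,
      div_lt_iff₀ hn0]
    rw [div_lt_iff₀ hc] at hn
    linarith
  have h2 : ∀ k : ℕ, Pg (SS ((k : ℝ) • ((1 / (n : ℝ)) • l))) := by
    intro k
    induction k with
    | zero =>
      refine h _ (hl _) (lt_of_le_of_lt (norm_SS _) ?_)
      simp [hc]
    | succ k ih =>
      have h3 := pg_comp ih h1
      rw [SS_comp] at h3
      have e : ((k : ℝ) • ((1 / (n : ℝ)) • l) + (1 / (n : ℝ)) • l) =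
          ((k + 1 : ℕ) : ℝ) • ((1 / (n : ℝ)) • l) := by
        push_cast
        rw [add_smul, one_smul]
      rw [e] at h3
      exact h3
  have h4 := h2 n
  rw [smul_smul, mul_one_div_cancel hn0.ne', one_smul] at h4
  exact h4

theorem det_comp' (A B : R4 →L[ℝ] R4) : (A.comp B).det = A.det * B.det :=
  LinearMap.det_comp (A : R4 →ₗ[ℝ] R4) (B : R4 →ₗ[ℝ] R4)

theorem det_DD (a : ℝ →L[ℝ] ℝ) (M : R3 →L[ℝ] R3) : (DD a M).det = a.det * M.det :=
  LinearMap.det_prodMap (a : ℝ →ₗ[ℝ] ℝ) (M : R3 →ₗ[ℝ] R3)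

theorem det_SS_nonneg (l : R3 →L[ℝ] ℝ) : 0 ≤ (SS l).det := by
  have h : SS l = (SS ((1 / 2 : ℝ) • l)).comp (SS ((1 / 2 : ℝ) • l)) := by
    rw [SS_comp, ← add_smul, add_halves, one_smul]
  rw [h, det_comp']
  exact mul_self_nonneg _

end GLL

open GLL

theorem m_GLL (hSML : StSML) (hGL : StGL) : StGLL := by
  intro A U z hU hz hz2 hline hpos hdet
  obtain ⟨a, ha⟩ : ∃ a : ℝ, a = (A (1, 0)).1 := ⟨_, rfl⟩
  rw [← ha] at hpos
  obtain ⟨l, hlv⟩ : ∃ l : R3 →L[ℝ] ℝ, ∀ v : R3, l v = (A (0, v)).1 :=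
    ⟨(ContinuousLinearMap.fst ℝ ℝ R3).comp (A.comp (ContinuousLinearMap.inr ℝ ℝ R3)),
      fun v => rfl⟩
  obtain ⟨M, hMv⟩ : ∃ M : R3 →L[ℝ] R3, ∀ v : R3, M v = (A (0, v)).2 :=
    ⟨(ContinuousLinearMap.snd ℝ ℝ R3).comp (A.comp (ContinuousLinearMap.inr ℝ ℝ R3)),
      fun v => rfl⟩
  have hA1 : ∀ s : ℝ, A (s, 0) = (s * a, 0) := by
    intro s
    have e1 : ((s, 0) : R4) = s • ((1, 0) : R4) := by
      rw [Prod.smul_mk, smul_eq_mul, mul_one, smul_zero]
    refine Prod.ext ?_ (hline s)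
    rw [e1, map_smul, ha]
    rfl
  have hdec : A = ((DD (a • ContinuousLinearMap.id ℝ ℝ) (ContinuousLinearMap.id ℝ R3)).comp
      (DD (ContinuousLinearMap.id ℝ ℝ) M)).comp (SS (a⁻¹ • l)) := by
    refine ContinuousLinearMap.ext fun y => ?_
    have e1 : y = (y.1, (0 : R3)) + ((0 : ℝ), y.2) := by
      refine Prod.ext ?_ ?_
      · change y.1 = y.1 + 0
        rw [add_zero]
      · change y.2 = 0 + y.2
        rw [zero_add]
    have e2 : A y = (y.1 * a + l y.2, M y.2) := by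
      conv_lhs => rw [e1]
      rw [map_add, hA1]
      refine Prod.ext ?_ ?_
      · change y.1 * a + (A (0, y.2)).1 = y.1 * a + l y.2
        rw [hlv]
      · change 0 + (A (0, y.2)).2 = M y.2
        rw [zero_add, hMv]
    rw [e2, ContinuousLinearMap.comp_apply, ContinuousLinearMap.comp_apply, SS_apply, DD_apply,
      DD_apply]
    refine Prod.ext ?_ rfl
    change y.1 * a + l y.2 = a * (y.1 + a⁻¹ * l y.2)
    field_simp
  have hdeta : (a • ContinuousLinearMap.id ℝ ℝ : ℝ →L[ℝ] ℝ).det = a := by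
    have h1 : LinearMap.det (a • LinearMap.id : ℝ →ₗ[ℝ] ℝ) = a := by
      rw [LinearMap.det_smul, LinearMap.det_id, Module.finrank_self, pow_one, mul_one]
    exact h1
  have hdet1 : (ContinuousLinearMap.id ℝ ℝ).det = 1 := LinearMap.det_id
  have hdet3 : (ContinuousLinearMap.id ℝ R3).det = 1 := LinearMap.det_id
  have hMdet : 0 < M.det := by
    rw [hdec, det_comp', det_comp', det_DD, det_DD, hdeta, hdet1, hdet3, mul_one, one_mul] at hdet
    have h1 := det_SS_nonneg (a⁻¹ • l)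
    by_contra h2
    push Not at h2
    have h3 : a * M.det ≤ 0 := mul_nonpos_of_nonneg_of_nonpos hpos.le h2
    have h4 : a * M.det * (SS (a⁻¹ • l)).det ≤ 0 := mul_nonpos_of_nonpos_of_nonneg h3 h1
    linarith
  have hPa : Pg (DD (a • ContinuousLinearMap.id ℝ ℝ) (ContinuousLinearMap.id ℝ R3)) :=
    pg_right hSML hGL _ (by rw [hdeta]; exact hpos)
  have hPA : Pg A := by
    rw [hdec]
    exact pg_comp (pg_comp hPa (pg_left hSML hGL M hMdet)) (pg_SS hSML _)
  exact hPA U z hU hz hz2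

end Pool.Agent.Helper70.H
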