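import Pool.Agent.Helper70.BI.H.M_GLL

/-!
# Project BI, stage 3 (H), section NORM, module LOCL: germs which preserve the line
-/

set_option autoImplicit false

open scoped Manifold ContDiff Topology ComplexConjugate
open Set Filter Pool.Agent.Helper65.Barb Pool.Agent.Helper18.BI

namespace Pool.Agent.Helper70.H

open Pool.Agent.Helper27.H (ArcD seg)
open Pool.Agent.Helper70.BI (I4 LD Eqv NearEq pc StPT StGL)

namespace LOCL

/-- the derivative of a map which preserves the line preserves the line -/
theorem fderiv_line {z : R4} {h : R4 → R4} (hz2 : z.2 = 0) (dh : DifferentiableAt ℝ h z)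
    (hline : ∀ᶠ y in 𝓝 z, y.2 = 0 → (h y).2 = 0) (s : ℝ) :
    (fderiv ℝ h z ((s, 0) : R4)).2 = 0 := by
  have hγ : HasDerivAt (fun t : ℝ => z + t • ((s, 0) : R4)) ((s, 0) : R4) 0 := by
    have h1 : HasDerivAt (fun t : ℝ => t • ((s, 0) : R4)) ((1 : ℝ) • ((s, 0) : R4)) 0 :=
      (hasDerivAt_id (0 : ℝ)).smul_const _
    rw [one_smul] at h1
    exact h1.const_add z
  have h2 : HasDerivAt (fun t : ℝ => h (z + t • ((s, 0) : R4))) (fderiv ℝ h z ((s, 0) : R4)) 0 := by
    have h3 : HasFDerivAt h (fderiv ℝ h z) (z + (0 : ℝ) • ((s, 0) : R4)) := by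
      rw [zero_smul, add_zero]
      exact dh.hasFDerivAt
    exact h3.comp_hasDerivAt (0 : ℝ) hγ
  have h4 : HasDerivAt (fun t : ℝ => (h (z + t • ((s, 0) : R4))).2)
      (fderiv ℝ h z ((s, 0) : R4)).2 0 :=
    (ContinuousLinearMap.snd ℝ ℝ R3).hasFDerivAt.comp_hasDerivAt (0 : ℝ) h2
  have h5 : (fun t : ℝ => (h (z + t • ((s, 0) : R4))).2) =ᶠ[𝓝 0] fun _ => (0 : R3) := by
    have h6 : Tendsto (fun t : ℝ => z + t • ((s, 0) : R4)) (𝓝 0) (𝓝 z) := by
      have h7 := hγ.continuousAt.tendsto
      rw [zero_smul, add_zero] at h7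
      exact h7
    filter_upwards [h6.eventually hline] with t ht
    apply ht
    change z.2 + t • (0 : R3) = 0
    rw [hz2, smul_zero, add_zero]
  have h7 : HasDerivAt (fun t : ℝ => (h (z + t • ((s, 0) : R4))).2) (0 : R3) 0 :=
    (hasDerivAt_const (0 : ℝ) (0 : R3)).congr_of_eventuallyEq h5
  exact h4.unique h7

end LOCL

theorem m_LOCL (hSML : StSML) (hGLL : StGLL) : StLOCL := by
  intro U z h hU hz hz2 hLD hfix hline hpos hdet
  have hF := Pool.Agent.Helper70.BI.ld_iff.1 hLD
  have dh : DifferentiableAt ℝ h z := hF.1.self_of_nhds.differentiableAt (by simp)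
  have hl1 := LOCL.fderiv_line hz2 dh hline
  obtain ⟨L, hL⟩ : ∃ L : R4 →L[ℝ] R4, L = fderiv ℝ h z := ⟨_, rfl⟩
  rw [← hL] at hl1 hpos hdet
  -- the inverse of the derivative
  obtain ⟨K, hKL, hLK⟩ : ∃ K : R4 →L[ℝ] R4, (∀ x, K (L x) = x) ∧ ∀ x, L (K x) = x := by
    refine ⟨((L.toContinuousLinearEquivOfDetNeZero hdet.ne').symm : R4 →L[ℝ] R4), fun x => ?_,
      fun x => ?_⟩
    · exact (L.toContinuousLinearEquivOfDetNeZero hdet.ne').symm_apply_apply x
    · exact (L.toContinuousLinearEquivOfDetNeZero hdet.ne').apply_symm_apply x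
  have hl2 : ∀ s : ℝ, (K (s, 0)).2 = 0 := by
    intro s
    have h1 : ((s, 0) : R4) = L ((s / (L (1, 0)).1, 0) : R4) := by
      have h2 : ((s / (L (1, 0)).1, 0) : R4) = (s / (L (1, 0)).1) • ((1, 0) : R4) := by
        refine Prod.ext ?_ ?_
        · change s / (L (1, 0)).1 = s / (L (1, 0)).1 * 1
          rw [mul_one]
        · change (0 : R3) = (s / (L (1, 0)).1) • (0 : R3)
          rw [smul_zero]
      rw [h2, map_smul]
      refine Prod.ext ?_ ?_
      · change s = s / (L (1, 0)).1 * (L (1, 0)).1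
        rw [div_mul_cancel₀ _ hpos.ne']
      · change (0 : R3) = (s / (L (1, 0)).1) • (L (1, 0)).2
        rw [hl1, smul_zero]
    rw [h1, hKL]
  -- the germ `k`
  have hk : RealL U z (fun y => z + K (h y - z)) := by
    obtain ⟨c, hc, hS⟩ := hSML
    apply hS U z _ hU hz
    · filter_upwards [hF.1] with y hy
      exact contDiffAt_const.add (K.contDiff.contDiffAt.comp y (hy.sub contDiffAt_const))
    · simp [hfix]
    · filter_upwards [hline] with y hy hy2
      have e : h y - z = ((h y).1 - z.1, 0) := by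
        refine Prod.ext rfl ?_
        change (h y).2 - z.2 = 0
        rw [hy hy2, hz2, sub_zero]
      change z.2 + (K (h y - z)).2 = 0
      rw [e, hl2, hz2, add_zero]
    · have h1 : HasFDerivAt (fun y => z + K (h y - z)) (K.comp L) z := by
        have h2 : HasFDerivAt (fun y => h y - z) L z := by
          rw [hL]
          exact dh.hasFDerivAt.sub_const z
        have h4 : HasFDerivAt (fun y => K (h y - z)) (K.comp L) z :=
          HasFDerivAt.comp (g := fun y : R4 => K y) (f := fun y => h y - z) z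
            (K.hasFDerivAt (x := h z - z)) h2
        exact h4.const_add z
      have h3 : K.comp L = ContinuousLinearMap.id ℝ R4 := by
        apply ContinuousLinearMap.ext
        intro x
        exact hKL x
      rw [h1.fderiv, h3, sub_self, norm_zero]
      exact hc
  have kc : ContinuousAt (fun y => z + K (h y - z)) z :=
    continuousAt_const.add (K.continuous.continuousAt.comp (dh.continuousAt.sub continuousAt_const))
  have h2 : RealL U ((fun y => z + K (h y - z)) z) (fun y => z + L (y - z)) := by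
    have e1 : (fun y => z + K (h y - z)) z = z := by simp [hfix]
    rw [e1]
    exact hGLL L U z hU hz hz2 hl1 hpos hdet
  have h3 := GLL.realL_comp hk h2 kc
  have e2 : (fun y => (fun y => z + L (y - z)) ((fun y => z + K (h y - z)) y)) = h := by
    funext y
    change z + L (z + K (h y - z) - z) = h y
    rw [add_sub_cancel_left, hLK, add_sub_cancel]
  rw [e2] at h3
  exact h3

end Pool.Agent.Helper70.H
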