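import Pool.Agent.Helper70.BI.H.StN
import Pool.Agent.Helper34.BI.M_D1b

/-!
# Project BI, stage 3 (H), section NORM, module NCT: crossing germs are equivalent to germs with
small round cuffs
-/

set_option autoImplicit false

open scoped Manifold ContDiff Topology ComplexConjugate
open Set Filter Pool.Agent.Helper65.Barb Pool.Agent.Helper18.BI

namespace Pool.Agent.Helper70.H

open Pool.Agent.Helper27.H (ArcD seg)
open Pool.Agent.Helper70.BI (I4 LD Eqv NearEq pc StPT StGL)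

namespace NCT

open Pool.Agent.Helper70.BI (ax clc core ld_iff ld_comp ld_congr famOn_iff contDiff_dfam
  contDiff_dfam_inv ld_dfam)
open Pool.Agent.Helper34.BI (cfac)

/-! ### elementary facts on the spine -/

private theorem cfac_pos {lam : ℝ} (hl : lam ∈ Ioc (0 : ℝ) 1) (q : ℝ) :
    0 < cfac lam q ∧ cfac lam q ≤ 1 := by
  have h0 : 0 ≤ step ((q - 1 / 20) / (1 / 25)) := Real.smoothTransition.nonneg _
  have h1 : step ((q - 1 / 20) / (1 / 25)) ≤ 1 := Real.smoothTransition.le_one _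
  unfold cfac
  constructor
  · have : 0 ≤ (1 - lam) * step ((q - 1 / 20) / (1 / 25)) :=
      mul_nonneg (by linarith [hl.2]) h0
    linarith [hl.1]
  · nlinarith [hl.1, hl.2]

private theorem rsq_ax (c a : ℝ) : rsq c (ax a) = (a - c) ^ 2 := by
  simp [rsq, nsq, ax]

private theorem neck_eq {p : R4} (h : p ∈ neck) : p = ax p.2.1 :=
  Prod.ext h.1 (Prod.ext rfl h.2.2.2)

private theorem ax_notMem {c : ℝ} (hc : c = 0 ∨ c = 1) : ax c ∉ SP := by
  intro h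
  rcases h with (h | h) | h
  · have := h.2
    rw [rsq_ax] at this
    rcases hc with rfl | rfl <;> norm_num at this
  · have := h.2
    rw [rsq_ax] at this
    rcases hc with rfl | rfl <;> norm_num at this
  · have h1 := h.2.1
    have h2 := h.2.2.1
    simp only [ax] at h1 h2
    rcases hc with rfl | rfl
    · norm_num at h1
    · norm_num at h2

private theorem fb_fst {p : R4} (h : p ∈ FB) : p.1 = 1 / 2 := by
  rcases h with (h | h) | h
  · exact h.1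
  · exact h.1
  · exact h.1

private theorem far1 {p : R4} (h : p ∈ flat 0) : 1 / 10 < rsq 1 p := by
  have h2 := h.2
  simp only [rsq, nsq] at h2 ⊢
  have h3 : (p.2.1 - 0) ^ 2 ≤ (1 / 5) ^ 2 := by
    nlinarith [sq_nonneg p.2.2.re, sq_nonneg p.2.2.im]
  have h4 := abs_le_of_sq_le_sq' h3 (by norm_num)
  nlinarith [h4.1, h4.2, sq_nonneg p.2.2.re, sq_nonneg p.2.2.im]

private theorem far0 {p : R4} (h : p ∈ flat 1) : 1 / 10 < rsq 0 p := by
  have h2 := h.2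
  simp only [rsq, nsq] at h2 ⊢
  have h3 : (p.2.1 - 1) ^ 2 ≤ (1 / 5) ^ 2 := by
    nlinarith [sq_nonneg p.2.2.re, sq_nonneg p.2.2.im]
  have h4 := abs_le_of_sq_le_sq' h3 (by norm_num)
  nlinarith [h4.1, h4.2, sq_nonneg p.2.2.re, sq_nonneg p.2.2.im]

private theorem ax_mem_FB {b : ℝ} (h0 : 0 < b) (h1 : b < 1) : ax b ∈ FB := by
  by_cases h2 : b < 1 / 5
  · refine Or.inl (Or.inl ⟨rfl, ?_⟩)
    rw [rsq_ax]; nlinarith
  · by_cases h3 : b ≤ 4 / 5
    · refine Or.inr ⟨rfl, ?_, ?_, rfl⟩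
      · simp only [ax]; linarith
      · simp only [ax]; linarith
    · refine Or.inl (Or.inr ⟨rfl, ?_⟩)
      rw [rsq_ax]; nlinarith

private theorem norm_le_of_rsq {c : ℝ} {q : R4} (h : rsq c q < 1 / 20) :
    ‖q.2 - pc c‖ ≤ 1 / 2 := by
  simp only [rsq, nsq] at h
  rw [Prod.norm_def]
  refine max_le ?_ ?_
  · simp only [pc, Prod.fst_sub, Real.norm_eq_abs]
    refine abs_le_of_sq_le_sq ?_ (by norm_num)
    nlinarith [sq_nonneg q.2.2.re, sq_nonneg q.2.2.im]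
  · simp only [pc, Prod.snd_sub, sub_zero]
    have h1 : ‖q.2.2‖ ^ 2 ≤ (1 / 2) ^ 2 := by
      rw [← Complex.normSq_eq_norm_sq, Complex.normSq_apply]
      nlinarith [sq_nonneg (q.2.1 - c)]
    exact le_of_sq_le_sq h1 (by norm_num)

private theorem rsq_cont (c : ℝ) : Continuous (rsq c) := by
  unfold rsq nsq
  fun_prop

/-! ### the contraction of both cuffs -/

/-- the contraction of both cuffs maps the spine into the filled spine, off the centres -/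
private theorem maps (hCL : Pool.Agent.Helper70.BI.StCL) {mu : ℝ} (hm : mu ∈ Ioc (0 : ℝ) 1)
    {p : R4} (hp : p ∈ SP) : clc 0 mu (clc 1 mu p) ∈ FB ∧ clc 0 mu (clc 1 mu p) ≠ ax 0 ∧
      clc 0 mu (clc 1 mu p) ≠ ax 1 := by
  obtain ⟨-, -, h0⟩ := hCL 0 (Or.inl rfl)
  obtain ⟨-, -, h1⟩ := hCL 1 (Or.inr rfl)
  obtain ⟨emb0, fst0, -, fix0, ax0, le0, -⟩ := h0 mu hm
  obtain ⟨emb1, fst1, -, fix1, ax1, le1, -⟩ := h1 mu hm
  have a01 : clc 1 mu (ax 0) = ax 0 := fix1 _ (by rw [rsq_ax]; norm_num)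
  have a10 : clc 0 mu (ax 1) = ax 1 := fix0 _ (by rw [rsq_ax]; norm_num)
  have a00 : clc 0 mu (ax 0) = ax 0 := by rw [ax0]; simp
  have a11 : clc 1 mu (ax 1) = ax 1 := by rw [ax1]; simp
  refine ⟨?_, fun h => ?_, fun h => ?_⟩
  · rcases hp with (h | h) | h
    · have hf : p ∈ flat 0 := ⟨h.1, h.2.le⟩
      rw [fix1 p (by linarith [far1 hf])]
      exact Or.inl (Or.inl ⟨by rw [fst0]; exact h.1, (le0 p).trans h.2.le⟩)
    · have hf : clc 1 mu p ∈ flat 1 := ⟨by rw [fst1]; exact h.1, (le1 p).trans h.2.le⟩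
      rw [fix0 _ (by linarith [far0 hf])]
      exact Or.inl (Or.inr hf)
    · rw [neck_eq h, ax1, ax0]
      obtain ⟨k0, k1⟩ := cfac_pos hm ((p.2.1 - 1) ^ 2)
      set k := cfac mu ((p.2.1 - 1) ^ 2)
      obtain ⟨l0, l1⟩ := cfac_pos hm ((1 + k * (p.2.1 - 1) - 0) ^ 2)
      set l := cfac mu ((1 + k * (p.2.1 - 1) - 0) ^ 2)
      have a1 := h.2.1
      have a2 := h.2.2.1
      have b0 : 0 < 1 + k * (p.2.1 - 1) := by nlinarith
      have b1 : 1 + k * (p.2.1 - 1) < 1 := by nlinarith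
      refine ax_mem_FB ?_ ?_
      · have := mul_pos l0 b0
        linarith
      · have : l * (1 + k * (p.2.1 - 1)) ≤ 1 * (1 + k * (p.2.1 - 1)) :=
          mul_le_mul_of_nonneg_right l1 b0.le
        linarith
  · have e1 : clc 1 mu p = ax 0 := emb0.2 (mem_univ _) (mem_univ _) (h.trans a00.symm)
    have e2 : p = ax 0 := emb1.2 (mem_univ _) (mem_univ _) (e1.trans a01.symm)
    exact ax_notMem (Or.inl rfl) (e2 ▸ hp)
  · have e1 : clc 1 mu p = ax 1 := emb0.2 (mem_univ _) (mem_univ _) (h.trans a10.symm)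
    have e2 : p = ax 1 := emb1.2 (mem_univ _) (mem_univ _) (e1.trans a11.symm)
    exact ax_notMem (Or.inr rfl) (e2 ▸ hp)

/-! ### determinants -/

private theorem det_ne {F : R4 → R4} {p : R4} (h : LD F p) : (fderiv ℝ F p).det ≠ 0 := by
  have h1 := (ld_iff.1 h).2
  have h2 : LinearMap.ker (fderiv ℝ F p : R4 →ₗ[ℝ] R4) = ⊥ :=
    LinearMap.ker_eq_bot.2 h1
  intro h0
  have h3 : LinearMap.det (fderiv ℝ F p : R4 →ₗ[ℝ] R4) = 0 := h0
  have h4 := LinearMap.bot_lt_ker_of_det_eq_zero h3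
  rw [h2] at h4
  exact lt_irrefl _ h4

private theorem det_cont {F : R4 → R4} {p : R4} (h : LD F p) :
    ContinuousAt (fun q => (fderiv ℝ F q).det) p := by
  have h1 := (ld_iff.1 h).1.self_of_nhds
  have h2 : ContinuousAt (fderiv ℝ F) p :=
    (h1.fderiv_right (m := ∞) (by simp)).continuousAt
  exact ContinuousLinearMap.continuous_det.continuousAt.comp h2

private theorem pos_of_pre {F : R4 → R4} {L : Set R4} (hL : IsPreconnected L)
    (hLD : ∀ p ∈ L, LD F p) {p q : R4} (hp : p ∈ L) (hq : q ∈ L)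
    (h : 0 < (fderiv ℝ F p).det) : 0 < (fderiv ℝ F q).det := by
  by_contra hneg
  have hq0 : (fderiv ℝ F q).det ≤ 0 := not_lt.1 hneg
  have hc : ContinuousOn (fun x => (fderiv ℝ F x).det) L :=
    fun x hx => (det_cont (hLD x hx)).continuousWithinAt
  have h1 := hL.intermediate_value hq hp hc
  obtain ⟨x, hx, hx0⟩ := h1 ⟨hq0, h.le⟩
  exact det_ne (hLD x hx) hx0

private theorem convex_seg (s₀ s₁ : ℝ) : Convex ℝ (seg s₀ s₁) := by
  rintro ⟨s, v⟩ ⟨hp1, hp2, hp3⟩ ⟨s', v'⟩ ⟨hq1, hq2, hq3⟩ x y hx hy hxy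
  simp only at hp1 hp2 hp3 hq1 hq2 hq3
  have hy' : y = 1 - x := by linarith
  subst hy'
  refine ⟨?_, ?_, ?_⟩
  · simp only [Prod.smul_mk, Prod.mk_add_mk, smul_eq_mul]
    nlinarith [mul_le_mul_of_nonneg_left hp1 hx, mul_le_mul_of_nonneg_left hq1 hy]
  · simp only [Prod.smul_mk, Prod.mk_add_mk, smul_eq_mul]
    nlinarith [mul_le_mul_of_nonneg_left hp2 hx, mul_le_mul_of_nonneg_left hq2 hy]
  · simp only [Prod.smul_mk, Prod.mk_add_mk, hp3, hq3, smul_zero, add_zero]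

/-- signs of products -/
private theorem sign_aux {x y z w : ℝ} (h : 0 < x * z) (hy : y ≠ 0) (hw : w ≠ 0)
    (h1 : 0 < x → 0 < y) (h2 : 0 < y → 0 < x) (h3 : 0 < z → 0 < w) (h4 : 0 < w → 0 < z) :
    0 < y * w := by
  rcases lt_trichotomy x 0 with hx | hx | hx
  · have hz : z < 0 := by
      by_contra hz
      nlinarith [not_lt.1 hz]
    have hy' : y < 0 := lt_of_le_of_ne (not_lt.1 fun h' => absurd (h2 h') (not_lt.2 hx.le)) hy
    have hw' : w < 0 := lt_of_le_of_ne (not_lt.1 fun h' => absurd (h4 h') (not_lt.2 hz.le)) hw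
    exact mul_pos_of_neg_of_neg hy' hw'
  · rw [hx] at h; simp at h
  · have hz : 0 < z := by
      by_contra hz
      nlinarith [not_lt.1 hz]
    exact mul_pos (h1 hx) (h3 hz)

/-! ### families of diffeomorphisms -/

/-- the translation vector -/
private noncomputable def vv : R4 := (0, ((1 : ℝ), (0 : ℂ)))

/-- conjugation of a family of diffeomorphisms with a translation -/
private noncomputable def shD (R : DFam I4 R4) : DFam I4 R4 where
  f q := R.f (q.1, q.2 - vv) + vv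
  g q := R.g (q.1, q.2 - vv) + vv
  smooth_f := by
    have h1 : ContDiff ℝ ∞ (fun q : ℝ × R4 => R.f (q.1, q.2 - vv) + vv) :=
      ((contDiff_dfam R).comp (contDiff_fst.prodMk (contDiff_snd.sub contDiff_const))).add
        contDiff_const
    rw [← contMDiff_iff_contDiff, modelWithCornersSelf_prod, ← chartedSpaceSelf_prod] at h1
    exact h1
  smooth_g := by
    have h1 : ContDiff ℝ ∞ (fun q : ℝ × R4 => R.g (q.1, q.2 - vv) + vv) :=
      ((contDiff_dfam_inv R).comp (contDiff_fst.prodMk (contDiff_snd.sub contDiff_const))).add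
        contDiff_const
    rw [← contMDiff_iff_contDiff, modelWithCornersSelf_prod, ← chartedSpaceSelf_prod] at h1
    exact h1
  fg t x := by simp [R.fg]
  gf t x := by simp [R.gf]

private theorem dfam_inj (G : DFam I4 R4) (t : ℝ) {x y : R4} (h : G.f (t, x) = G.f (t, y)) :
    x = y := by
  rw [← G.gf t x, h, G.gf]

/-- a diffeomorphism which is the identity off a subset of `B` maps `B` to itself -/
private theorem maps_self {G : DFam I4 R4} {B C : Set R4} (hC : C ⊆ B)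
    (h : ∀ t y, y ∉ C → G.f (t, y) = y) (t : ℝ) {y : R4} (hy : y ∈ B) : G.f (t, y) ∈ B := by
  by_contra hn
  have h1 := h t (G.f (t, y)) fun h' => hn (hC h')
  have h2 := dfam_inj G t h1
  rw [h2] at hn
  exact hn hy

private theorem ball_abs {c r : ℝ} {y : R4} (h : y ∈ Metric.ball (ax c) r) : |y.2.1 - c| < r := by
  have h1 : dist y (ax c) < r := h
  have h2 : dist y.2 (ax c).2 ≤ dist y (ax c) := by rw [Prod.dist_eq]; exact le_max_right _ _
  have h3 : dist y.2.1 (ax c).2.1 ≤ dist y.2 (ax c).2 := by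
    rw [Prod.dist_eq]; exact le_max_left _ _
  have h4 : dist y.2.1 (ax c).2.1 = |y.2.1 - c| := Real.dist_eq _ _
  linarith

private theorem ball_disj {y : R4} (h0 : y ∈ Metric.ball z0 (1 / 10))
    (h1 : y ∈ Metric.ball (ax 1) (1 / 10)) : False := by
  have e0 := abs_lt.1 (ball_abs (c := 0) h0)
  have e1 := abs_lt.1 (ball_abs h1)
  linarith [e0.2, e1.1]

private theorem z0_eq : z0 = ax 0 := rfl

private theorem ax1_eq : (ax 1 : R4) = z0 + vv := by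
  simp [ax, z0, vv]

private theorem mem_ball_sub {r : ℝ} {y : R4} :
    y ∈ Metric.ball (ax 1) r ↔ y - vv ∈ Metric.ball z0 r := by
  rw [Metric.mem_ball, Metric.mem_ball, dist_eq_norm, dist_eq_norm, ax1_eq]
  rw [show y - (z0 + vv) = y - vv - z0 by abel]

private theorem nfam {D : ArcD} {T : R4 → R4} (hT : D.XG T) {V : Set R4}
    (hVU : ∀ p ∈ V, T p ∈ D.U) (hFV : FB ⊆ V) {R0 R1 : DFam I4 R4} {r0 r1 : ℝ}
    (h0 : r0 < 1 / 10) (h1 : r1 < 1 / 10) (b0 : Metric.ball z0 r0 ⊆ V)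
    (b1 : Metric.ball (ax 1) r1 ⊆ V)
    (S0 : ∃ C : Set R4, IsCompact C ∧ C ⊆ Metric.ball z0 r0 ∧ ∀ t y, y ∉ C → R0.f (t, y) = y)
    (S1 : ∃ C : Set R4, IsCompact C ∧ C ⊆ Metric.ball z0 r1 ∧ ∀ t y, y ∉ C → R1.f (t, y) = y)
    (L0 : ∀ t y, (R0.f (t, y)).2 = 0 ↔ y.2 = 0) (L1 : ∀ t y, (R1.f (t, y)).2 = 0 ↔ y.2 = 0)
    (A0 : ∀ p ∈ Metric.ball z0 r0, T p ∈ D.A → p.2 = 0)
    (A1 : ∀ p ∈ Metric.ball z0 r1, T (p + vv) ∈ D.A → p.2 = 0) :
    (∀ t, ∀ q ∈ FB, q ≠ ax 0 → q ≠ ax 1 → (R0.comp (shD R1)).f (t, q) ∈ V ∧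
      T ((R0.comp (shD R1)).f (t, q)) ∈ D.U \ D.A) ∧
    (∀ t, ∀ q ∈ Metric.ball z0 (1 / 10), (R0.comp (shD R1)).f (t, q) = R0.f (t, q)) ∧
    (∀ t, ∀ q ∈ Metric.ball (ax 1) (1 / 10),
      (R0.comp (shD R1)).f (t, q) = R1.f (t, q - vv) + vv) := by
  obtain ⟨C0, -, hC0, F0⟩ := S0
  obtain ⟨C1, -, hC1, F1⟩ := S1
  have hb0 : Metric.ball z0 r0 ⊆ Metric.ball z0 (1 / 10) := Metric.ball_subset_ball h0.le
  have hb1 : Metric.ball z0 r1 ⊆ Metric.ball z0 (1 / 10) := Metric.ball_subset_ball h1.le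
  have hcomp : ∀ t q, (R0.comp (shD R1)).f (t, q) = R0.f (t, R1.f (t, q - vv) + vv) :=
    fun _ _ => rfl
  -- the second family is the identity off the ball around `ax 1`
  have i1 : ∀ t q, q ∉ Metric.ball (ax 1) r1 → R1.f (t, q - vv) + vv = q := by
    intro t q hq
    rw [F1 t (q - vv) fun h => hq (mem_ball_sub.2 (hC1 h))]
    simp
  have i0 : ∀ t q, q ∉ Metric.ball z0 r0 → R0.f (t, q) = q := fun t q hq =>
    F0 t q fun h => hq (hC0 h)
  have m1 : ∀ t q, ∀ r, r1 ≤ r → q ∈ Metric.ball (ax 1) r →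
      R1.f (t, q - vv) + vv ∈ Metric.ball (ax 1) r := by
    intro t q r hr hq
    rw [mem_ball_sub] at hq ⊢
    rw [add_sub_cancel_right]
    exact maps_self (hC1.trans (Metric.ball_subset_ball hr)) F1 t hq
  have k1 : ∀ t, ∀ q ∈ Metric.ball (ax 1) (1 / 10),
      (R0.comp (shD R1)).f (t, q) = R1.f (t, q - vv) + vv := by
    intro t q hq
    rw [hcomp]
    exact i0 t _ fun h => ball_disj (hb0 h) (m1 t q _ h1.le hq)
  have k0 : ∀ t, ∀ q ∈ Metric.ball z0 (1 / 10),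
      (R0.comp (shD R1)).f (t, q) = R0.f (t, q) := by
    intro t q hq
    rw [hcomp, i1 t q fun h => ball_disj hq (Metric.ball_subset_ball h1.le h)]
  refine ⟨fun t q hq hq0 hq1 => ?_, k0, k1⟩
  by_cases c1 : q ∈ Metric.ball (ax 1) r1
  · have e1 := k1 t q (Metric.ball_subset_ball h1.le c1)
    rw [e1]
    have e2 := m1 t q r1 le_rfl c1
    refine ⟨b1 e2, hVU _ (b1 e2), fun hA => ?_⟩
    have e3 : R1.f (t, q - vv) ∈ Metric.ball z0 r1 := by
      rw [mem_ball_sub, add_sub_cancel_right] at e2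
      exact e2
    have e4 := A1 _ e3 hA
    rw [L1] at e4
    refine hq1 (Prod.ext (fb_fst hq) ?_)
    have e5 : q.2 - ((1 : ℝ), (0 : ℂ)) = 0 := e4
    have e6 := sub_eq_zero.1 e5
    exact e6
  · by_cases c0 : q ∈ Metric.ball z0 r0
    · have e1 := k0 t q (hb0 c0)
      rw [e1]
      have e2 : R0.f (t, q) ∈ Metric.ball z0 r0 := maps_self hC0 F0 t c0
      refine ⟨b0 e2, hVU _ (b0 e2), fun hA => ?_⟩
      have e4 := A0 _ e2 hA
      rw [L0] at e4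
      exact hq0 (Prod.ext (fb_fst hq) e4)
    · rw [hcomp, i1 t q c1, i0 t q c0]
      refine ⟨hFV hq, hVU _ (hFV hq), fun hA => ?_⟩
      rcases hT.arc q hq hA with h | h
      · exact hq0 h
      · exact hq1 h

/-- a neighbourhood of the filled spine on which `T` is an embedding into `D.U` -/
private theorem exV (hA1 : StA1) {D : ArcD} {T : R4 → R4} (h : D.XG T) :
    ∃ V : Set R4, IsOpen V ∧ FB ⊆ V ∧ (∀ p ∈ V, LD T p) ∧ InjOn T V ∧ ∀ p ∈ V, T p ∈ D.U := by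
  obtain ⟨δ, hs, he⟩ := hA1 R4 R4 R4 I4 R4 T FB Pool.Agent.Helper34.BI.D1b.cpt_FB h.emb.1 h.emb.2
  refine ⟨δ.source ∩ δ ⁻¹' D.U, ?_, ?_, ?_, ?_, ?_⟩
  · exact δ.toOpenPartialHomeomorph.continuousOn.isOpen_inter_preimage δ.open_source D.openU
  · intro p hp
    refine ⟨hs hp, ?_⟩
    show δ p ∈ D.U
    rw [he p (hs hp)]
    exact h.inU p hp
  · rintro p ⟨hp, -⟩
    exact ⟨δ, hp, fun q hq => (he q hq).symm⟩
  · rintro p ⟨hp, -⟩ q ⟨hq, -⟩ hpq
    rw [← he p hp, ← he q hq] at hpq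
    exact δ.toOpenPartialHomeomorph.injOn hp hq hpq
  · rintro p ⟨hp, hpU⟩
    rw [← he p hp]
    exact hpU

private theorem ld_add (v p : R4) : LD (fun q => q + v) p := by
  rw [ld_iff]
  refine ⟨Eventually.of_forall fun q => contDiffAt_id.add contDiffAt_const, ?_⟩
  have h1 : fderiv ℝ (fun q : R4 => q + v) p = ContinuousLinearMap.id ℝ R4 := by
    rw [fderiv_add_const]
    exact fderiv_id'
  rw [h1]
  exact fun _ _ h => h

/-- the family of germs -/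
private theorem fam (hCL : Pool.Agent.Helper70.BI.StCL) (hF : Pool.Agent.Helper70.BI.StFam)
    {D : ArcD} {T : R4 → R4} {V : Set R4} (hLD : ∀ p ∈ V, LD T p) (hinj : InjOn T V)
    {N : DFam I4 R4} (N0 : ∀ y, N.f (0, y) = y)
    (hN : ∀ t, ∀ q ∈ FB, q ≠ ax 0 → q ≠ ax 1 → N.f (t, q) ∈ V ∧ T (N.f (t, q)) ∈ D.U \ D.A)
    {lam : ℝ} (hlam : lam ∈ Ioc (0 : ℝ) 1) :
    EmbOn I4 (fun p => T (N.f (1, clc 0 lam (clc 1 lam p)))) SP ∧
    (∀ p ∈ SP, T (N.f (1, clc 0 lam (clc 1 lam p))) ∈ D.U \ D.A) ∧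
    Eqv (fun p => D.e (T p)) (fun p => D.e (T (N.f (1, clc 0 lam (clc 1 lam p))))) := by
  obtain ⟨hs0, one0, h0⟩ := hCL 0 (Or.inl rfl)
  obtain ⟨hs1, one1, h1⟩ := hCL 1 (Or.inr rfl)
  have hmu : ∀ t ∈ Icc (0 : ℝ) 1, 1 - t * (1 - lam) ∈ Ioc (0 : ℝ) 1 := by
    intro t ht
    constructor
    · nlinarith [ht.1, ht.2, hlam.1, hlam.2]
    · nlinarith [ht.1, ht.2, hlam.1, hlam.2]
  have hmem : ∀ t, ∀ mu ∈ Ioc (0 : ℝ) 1, ∀ p ∈ SP, N.f (t, clc 0 mu (clc 1 mu p)) ∈ V ∧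
      T (N.f (t, clc 0 mu (clc 1 mu p))) ∈ D.U \ D.A := by
    intro t mu hm p hp
    obtain ⟨a1, a2, a3⟩ := maps hCL hm hp
    exact hN t _ a1 a2 a3
  have hld : ∀ t, ∀ mu ∈ Ioc (0 : ℝ) 1, ∀ p, LD (fun q => N.f (t, clc 0 mu (clc 1 mu q))) p := by
    intro t mu hm p
    have e1 := (h1 mu hm).1.1 p (mem_univ _)
    have e0 := (h0 mu hm).1.1 (clc 1 mu p) (mem_univ _)
    have e2 : LD (fun q => clc 0 mu (clc 1 mu q)) p := ld_comp e1 e0
    exact ld_comp e2 (ld_dfam N t _)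
  have hinj' : ∀ t, ∀ mu ∈ Ioc (0 : ℝ) 1, ∀ p ∈ SP, ∀ q ∈ SP,
      T (N.f (t, clc 0 mu (clc 1 mu p))) = T (N.f (t, clc 0 mu (clc 1 mu q))) → p = q := by
    intro t mu hm p hp q hq he
    have e1 := hinj (hmem t mu hm p hp).1 (hmem t mu hm q hq).1 he
    have e2 := dfam_inj N t e1
    have e3 := (h0 mu hm).1.2 (mem_univ _) (mem_univ _) e2
    exact (h1 mu hm).1.2 (mem_univ _) (mem_univ _) e3
  have hLe : ∀ p ∈ V, T p ∈ D.U \ D.A → LD (fun q => D.e (T q)) p := fun p hp hq =>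
    ld_comp (hLD p hp) (D.embe.1 (T p) hq)
  have hm : ContDiff ℝ ∞ (fun z : ℝ × R4 => N.f (z.1, clc 0 (1 - z.1 * (1 - lam))
      (clc 1 (1 - z.1 * (1 - lam)) z.2))) := by
    have g1 : ContDiff ℝ ∞ (fun z : ℝ × R4 => 1 - z.1 * (1 - lam)) :=
      contDiff_const.sub (contDiff_fst.mul contDiff_const)
    have g2 : ContDiff ℝ ∞ (fun z : ℝ × R4 => clc 1 (1 - z.1 * (1 - lam)) z.2) :=
      hs1.comp (g1.prodMk contDiff_snd)
    have g3 : ContDiff ℝ ∞ (fun z : ℝ × R4 => clc 0 (1 - z.1 * (1 - lam))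
        (clc 1 (1 - z.1 * (1 - lam)) z.2)) := hs0.comp (g1.prodMk g2)
    exact (contDiff_dfam N).comp (contDiff_fst.prodMk g3)
  have hfam : FamOn I4 (fun z : ℝ × R4 => D.e (T (N.f (z.1, clc 0 (1 - z.1 * (1 - lam))
      (clc 1 (1 - z.1 * (1 - lam)) z.2))))) SP := by
    rw [famOn_iff]
    refine ⟨fun t ht p hp => ?_, fun t ht => ⟨fun p hp => ?_, fun p hp q hq he => ?_⟩⟩
    · obtain ⟨a1, a2⟩ := hmem t _ (hmu t ht) p hp
      have g1 := (ld_iff.1 (hLe _ a1 a2)).1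
      have g2 : ContinuousAt (fun z : ℝ × R4 => N.f (z.1, clc 0 (1 - z.1 * (1 - lam))
          (clc 1 (1 - z.1 * (1 - lam)) z.2))) (t, p) := hm.continuous.continuousAt
      filter_upwards [g2.eventually g1] with z hz
      exact ContDiffAt.comp (g := fun q => D.e (T q)) z hz hm.contDiffAt
    · obtain ⟨a1, a2⟩ := hmem t _ (hmu t ht) p hp
      exact ld_comp (F := fun q => D.e (T q)) (hld t _ (hmu t ht) p) (hLe _ a1 a2)
    · obtain ⟨-, a2⟩ := hmem t _ (hmu t ht) p hp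
      obtain ⟨-, b2⟩ := hmem t _ (hmu t ht) q hq
      exact hinj' t _ (hmu t ht) p hp q hq (D.embe.2 a2 b2 he)
  refine ⟨⟨fun p hp => ?_, fun p hp q hq he => hinj' 1 lam hlam p hp q hq he⟩,
    fun p hp => (hmem 1 lam hlam p hp).2, ?_⟩
  · exact ld_comp (hld 1 lam hlam p) (hLD _ (hmem 1 lam hlam p hp).1)
  · have h := hF _ hfam
    have e0 : (fun p : R4 => D.e (T (N.f (((0 : ℝ), p).1, clc 0 (1 - ((0 : ℝ), p).1 * (1 - lam))
        (clc 1 (1 - ((0 : ℝ), p).1 * (1 - lam)) ((0 : ℝ), p).2))))) = fun p => D.e (T p) := by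
      funext p
      simp [one0, one1, N0]
    have e1 : (fun p : R4 => D.e (T (N.f (((1 : ℝ), p).1, clc 0 (1 - ((1 : ℝ), p).1 * (1 - lam))
        (clc 1 (1 - ((1 : ℝ), p).1 * (1 - lam)) ((1 : ℝ), p).2))))) =
        fun p => D.e (T (N.f (1, clc 0 lam (clc 1 lam p)))) := by
      funext p
      simp
    rw [e0, e1] at h
    exact h

/-- the two centres satisfy the hypotheses of `StCEN` -/
private theorem stra (hDET : Pool.Agent.Helper70.BI.StDET) {D : ArcD} {T : R4 → R4}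
    (hT : D.XG T) {V : Set R4} (hLD : ∀ p ∈ V, LD T p) (hinj : InjOn T V) {ε : ℝ} (hε : 0 < ε)
    (hb0 : Metric.ball (ax 0) ε ⊆ V) (hb1 : Metric.ball (ax 1) ε ⊆ V) :
    ∃ σ τ : ℝ → ℝ, D.s₀ < σ (1 / 2) ∧ σ (1 / 2) < τ (1 / 2) ∧ τ (1 / 2) < D.s₁ ∧
      StrA D T σ ε ∧ StrA D (fun p => T (p + vv)) τ ε := by
  obtain ⟨σ, τ, hσ, hτ, dσ, dτ, l0, l1, l2, e0, e1, hor⟩ := hT.str
  have m0 : (ax 0 : R4) ∈ FB := Or.inl (Or.inl ⟨rfl, by rw [rsq_ax]; norm_num⟩)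
  have m1 : (ax 1 : R4) ∈ FB := Or.inl (Or.inr ⟨rfl, by rw [rsq_ax]; norm_num⟩)
  have hball : ∀ p ∈ Metric.ball z0 ε, p + vv ∈ Metric.ball (ax 1 : R4) ε := by
    intro p hp
    rw [mem_ball_sub, add_sub_cancel_right]
    exact hp
  have h12 : D.s₀ < D.s₁ := by linarith
  refine ⟨σ, τ, l0, l1, l2, ⟨hε, fun p hp => hLD p (hb0 hp), hinj.mono hb0, hσ, dσ, l0,
    l1.trans l2, e0, hor⟩, ⟨hε, fun p hp => ?_, fun p hp q hq he => ?_, hτ, dτ, l0.trans l1, l2,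
    ?_, ?_⟩⟩
  · exact ld_comp (ld_add vv p) (hLD _ (hb1 (hball p hp)))
  · have h1 := hinj (hb1 (hball p hp)) (hb1 (hball q hq)) he
    exact add_right_cancel h1
  · filter_upwards [e1] with s hs
    have h1 : ((s, ((0 : ℝ), (0 : ℂ))) : R4) + vv = (s, ((1 : ℝ), (0 : ℂ))) := by
      simp [vv]
    simp only [h1]
    exact hs
  · have g1 : fderiv ℝ (fun p => T (p + vv)) z0 = fderiv ℝ T (ax 1) := by
      rw [fderiv_comp_add_right, ax1_eq]
    rw [g1]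
    have hseg : IsPreconnected (seg D.s₀ D.s₁) := (convex_seg _ _).isPreconnected
    have a1 : ((σ (1 / 2), 0) : R4) ∈ seg D.s₀ D.s₁ := ⟨l0.le, (l1.trans l2).le, rfl⟩
    have a2 : ((τ (1 / 2), 0) : R4) ∈ seg D.s₀ D.s₁ := ⟨(l0.trans l1).le, l2.le, rfl⟩
    exact sign_aux hor (det_ne (hT.emb.1 _ m1)) (det_ne (D.emb.1 _ a2))
      (hDET T FB (Or.inl rfl) hT.emb.1 _ m0 _ m1) (hDET T FB (Or.inl rfl) hT.emb.1 _ m1 _ m0)
      (pos_of_pre hseg D.emb.1 a1 a2) (pos_of_pre hseg D.emb.1 a2 a1)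

end NCT

/-- **NCT** (crossing germs are equivalent to germs with small round cuffs). -/
theorem m_NCT (hCEN : StCEN) (hCL : Pool.Agent.Helper70.BI.StCL)
    (hF : Pool.Agent.Helper70.BI.StFam) (hDET : Pool.Agent.Helper70.BI.StDET) (hA1 : StA1) :
    StNCT := by
  intro D T hT
  obtain ⟨V, hV, hFV, hLD, hinj, hVU⟩ := NCT.exV hA1 hT
  have m0 : (Pool.Agent.Helper70.BI.ax 0 : R4) ∈ FB :=
    Or.inl (Or.inl ⟨rfl, by rw [NCT.rsq_ax]; norm_num⟩)
  have m1 : (Pool.Agent.Helper70.BI.ax 1 : R4) ∈ FB :=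
    Or.inl (Or.inr ⟨rfl, by rw [NCT.rsq_ax]; norm_num⟩)
  obtain ⟨ε0, hε0, hb0⟩ := Metric.isOpen_iff.1 hV _ (hFV m0)
  obtain ⟨ε1, hε1, hb1⟩ := Metric.isOpen_iff.1 hV _ (hFV m1)
  obtain ⟨ε, hε, le0, le1, le2⟩ : ∃ ε : ℝ, 0 < ε ∧ ε ≤ ε0 ∧ ε ≤ ε1 ∧ ε ≤ 1 / 20 :=
    ⟨min (min ε0 ε1) (1 / 20), by positivity, (min_le_left _ _).trans (min_le_left _ _),
      (min_le_left _ _).trans (min_le_right _ _), min_le_right _ _⟩
  have hb0' := (Metric.ball_subset_ball le0).trans hb0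
  have hb1' := (Metric.ball_subset_ball le1).trans hb1
  obtain ⟨σ, τ, l0, l1, l2, SA0, SA1⟩ := NCT.stra hDET hT hLD hinj hε hb0' hb1'
  obtain ⟨R0, r0, r0p, r0l, R00, S0, L0, A0, G0⟩ := hCEN D T σ ε SA0
  obtain ⟨R1, r1, r1p, r1l, R10, S1, L1, A1, G1⟩ := hCEN D _ τ ε SA1
  obtain ⟨kB, k0, k1⟩ := NCT.nfam hT hVU hFV (R0 := R0) (R1 := R1) (r0 := r0) (r1 := r1)
    (by linarith) (by linarith) ((Metric.ball_subset_ball r0l.le).trans hb0')
    ((Metric.ball_subset_ball r1l.le).trans hb1') S0 S1 L0 L1 A0 A1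
  have N0 : ∀ y, (R0.comp (NCT.shD R1)).f (0, y) = y := by
    intro y
    show R0.f (0, R1.f (0, y - NCT.vv) + NCT.vv) = y
    rw [R00, R10, sub_add_cancel]
  rw [Metric.eventually_nhds_iff] at G0 G1
  obtain ⟨δ0, hδ0, G0⟩ := G0
  obtain ⟨δ1, hδ1, G1⟩ := G1
  obtain ⟨δ, hδ, d0, d1, d2⟩ : ∃ δ : ℝ, 0 < δ ∧ δ ≤ δ0 ∧ δ ≤ δ1 ∧ δ ≤ 1 / 20 :=
    ⟨min (min δ0 δ1) (1 / 20), by positivity, (min_le_left _ _).trans (min_le_left _ _),
      (min_le_left _ _).trans (min_le_right _ _), min_le_right _ _⟩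
  refine ⟨σ (1 / 2), τ (1 / 2), δ, l0, l1, l2, hδ, fun lam hlam => ?_⟩
  have hl : lam ∈ Ioc (0 : ℝ) 1 := ⟨hlam.1, by linarith [hlam.2]⟩
  obtain ⟨f1, f2, f3⟩ := NCT.fam hCL hF hLD hinj N0 kB hl
  obtain ⟨-, -, h0⟩ := hCL 0 (Or.inl rfl)
  obtain ⟨-, -, h1⟩ := hCL 1 (Or.inr rfl)
  obtain ⟨-, -, con0, fix0, -, -, -⟩ := h0 lam hl
  obtain ⟨-, -, con1, fix1, -, -, -⟩ := h1 lam hl
  -- points close to the centre
  have hdist : ∀ (s : ℝ) (x : R3), |s - 1 / 2| < δ → ‖x‖ ≤ 1 / 2 →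
      dist ((s, lam • x) : R4) z0 < δ := by
    intro s x hs hx
    rw [Prod.dist_eq]
    refine max_lt ?_ ?_
    · rw [Real.dist_eq]
      exact hs
    · have e1 : dist (lam • x) ((0 : ℝ), (0 : ℂ)) = ‖lam • x‖ := dist_zero_right _
      have e2 : ‖lam • x‖ = lam * ‖x‖ := by
        rw [norm_smul, Real.norm_of_nonneg hlam.1.le]
      show dist (lam • x) ((0 : ℝ), (0 : ℂ)) < δ
      rw [e1, e2]
      nlinarith [hlam.1, hlam.2, norm_nonneg x]
  refine ⟨_, ⟨f1, f2, ?_, ?_⟩, f3⟩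
  · intro p hp
    have c1 : ∀ᶠ q in 𝓝 p, rsq 0 q < 1 / 20 :=
      (NCT.rsq_cont 0).continuousAt.eventually (gt_mem_nhds (by rw [hp.2]; norm_num))
    have c2 : ∀ᶠ q in 𝓝 p, 1 / 10 < rsq 1 q :=
      (NCT.rsq_cont 1).continuousAt.eventually (lt_mem_nhds (NCT.far1 ⟨hp.1, hp.2.le⟩))
    have c3 : ∀ᶠ q : R4 in 𝓝 p, |q.1 - 1 / 2| < δ := by
      have : Continuous fun q : R4 => |q.1 - 1 / 2| := by fun_prop
      refine this.continuousAt.eventually (gt_mem_nhds ?_)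
      show |p.1 - 1 / 2| < δ
      rw [hp.1]
      simpa using hδ
    filter_upwards [c1, c2, c3] with q q1 q2 q3
    have hn : ‖q.2‖ ≤ 1 / 2 := by
      have := NCT.norm_le_of_rsq q1
      rwa [show pc 0 = 0 from rfl, sub_zero] at this
    have e1 : Pool.Agent.Helper70.BI.clc 1 lam q = q := fix1 q (by linarith)
    have e2 : Pool.Agent.Helper70.BI.clc 0 lam q = (q.1, lam • q.2) := by
      rw [con0 q q1.le]
      rw [show pc 0 = 0 from rfl, sub_zero, zero_add]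
    have hd := hdist q.1 q.2 q3 hn
    rw [e1, e2, k0 1 _ (lt_of_lt_of_le hd (by linarith))]
    have := G0 (lt_of_lt_of_le hd d0)
    exact this
  · intro p hp
    have c1 : ∀ᶠ q in 𝓝 p, rsq 1 q < 1 / 20 :=
      (NCT.rsq_cont 1).continuousAt.eventually (gt_mem_nhds (by rw [hp.2]; norm_num))
    have c3 : ∀ᶠ q : R4 in 𝓝 p, |q.1 - 1 / 2| < δ := by
      have : Continuous fun q : R4 => |q.1 - 1 / 2| := by fun_prop
      refine this.continuousAt.eventually (gt_mem_nhds ?_)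
      show |p.1 - 1 / 2| < δ
      rw [hp.1]
      simpa using hδ
    filter_upwards [c1, c3] with q q1 q3
    have hn : ‖q.2 - pc 1‖ ≤ 1 / 2 := NCT.norm_le_of_rsq q1
    have hd := hdist q.1 (q.2 - pc 1) q3 hn
    have e1 : Pool.Agent.Helper70.BI.clc 1 lam q = (q.1, pc 1 + lam • (q.2 - pc 1)) :=
      con1 q q1.le
    have e4 : ((q.1, pc 1 + lam • (q.2 - pc 1)) : R4) - NCT.vv = (q.1, lam • (q.2 - pc 1)) := by
      refine Prod.ext ?_ ?_
      · simp [NCT.vv]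
      · show pc 1 + lam • (q.2 - pc 1) - ((1 : ℝ), (0 : ℂ)) = lam • (q.2 - pc 1)
        exact add_sub_cancel_left _ _
    have hmem : ((q.1, pc 1 + lam • (q.2 - pc 1)) : R4) ∈
        Metric.ball (Pool.Agent.Helper70.BI.ax 1) (1 / 10) := by
      rw [NCT.mem_ball_sub, e4]
      exact lt_of_lt_of_le hd (by linarith)
    have e2 : Pool.Agent.Helper70.BI.clc 0 lam (q.1, pc 1 + lam • (q.2 - pc 1)) =
        (q.1, pc 1 + lam • (q.2 - pc 1)) := by
      refine fix0 _ ?_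
      have h3 := abs_lt.1 (NCT.ball_abs hmem)
      simp only [rsq, nsq] at h3 ⊢
      nlinarith [h3.1, h3.2, sq_nonneg (pc 1 + lam • (q.2 - pc 1)).2.re,
        sq_nonneg (pc 1 + lam • (q.2 - pc 1)).2.im]
    rw [e1, e2, k1 1 _ hmem, e4]
    have := G1 (lt_of_lt_of_le hd d1)
    exact this

end Pool.Agent.Helper70.H
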