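import Pool.Agent.Helper70.BI.H.StN

/-!
# Project BI, stage 3 (H), section NORM: assembly
-/

set_option autoImplicit false

open scoped Manifold ContDiff Topology ComplexConjugate
open Set Filter Pool.Agent.Helper65.Barb Pool.Agent.Helper18.BI

namespace Pool.Agent.Helper70.H

open Pool.Agent.Helper27.H (ArcD seg StNORM)
open Pool.Agent.Helper70.BI (I4 LD Eqv NearEq pc StPT StGL StFam StMain2 IsW MW embOn_iff embOn_comp
  famOn_comp famOn_const famOn_iff)

/-- the class of a germ in normal form after a slide -/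
theorem NORM.slide (hF : StFam) {D : ArcD} {a b lam : ℝ} {T : R4 → R4} (hT : NC D a b lam T)
    {S : ℝ × R4 → R4} (hS : ContDiff ℝ ∞ S) (hS0 : ∀ y, S (0, y) = y)
    (hSe : ∀ t ∈ Icc (0 : ℝ) 1, EmbOn I4 (fun y => S (t, y)) univ)
    (hSU : ∀ t ∈ Icc (0 : ℝ) 1, ∀ y ∈ D.U \ D.A, S (t, y) ∈ D.U \ D.A) :
    EmbOn I4 (fun p => D.e (S (1, T p))) SP ∧
      Eqv (fun p => D.e (T p)) (fun p => D.e (S (1, T p))) := by
  have hSf : FamOn I4 S univ := by
    rw [famOn_iff]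
    exact ⟨fun t _ p _ => Eventually.of_forall fun z => hS.contDiffAt, hSe⟩
  have h1 : FamOn I4 (fun z : ℝ × R4 => S (z.1, T z.2)) SP :=
    famOn_comp hSf (famOn_const hT.emb) fun _ _ _ _ => mem_univ _
  have h2 : FamOn I4 (fun z : ℝ × R4 => D.e (S (z.1, T z.2))) SP := by
    have h3 := famOn_comp (J := fun z : ℝ × R4 => D.e z.2)
      (m := fun z : ℝ × R4 => S (z.1, T z.2)) (famOn_const D.embe) h1
      (fun t ht p hp => hSU t ht _ (hT.off p hp))
    exact h3
  refine ⟨(famOn_iff.1 h2).2 1 (by norm_num), ?_⟩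
  have h4 := hF _ h2
  simpa [hS0] using h4

theorem m_NORM (hNCT : StNCT) (hSLD : StSLD) (hF : StFam) (hMain : StMain2) : StNORM := by
  intro D T T' W hW hT hT'
  obtain ⟨a, b, l₀, ha, hab, hb, hl₀, hN⟩ := hNCT D T hT
  obtain ⟨a', b', l₀', ha', hab', hb', hl₀', hN'⟩ := hNCT D T' hT'
  obtain ⟨S, δ, hS, hS0, hδ, hSe, hSU, hSa, hSb⟩ := hSLD D a b a' b' ha hab hb ha' hab' hb'
  set lam : ℝ := min (min l₀ l₀') δ / 2 with hlam
  have hm : 0 < min (min l₀ l₀') δ := lt_min (lt_min hl₀ hl₀') hδ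
  have hl : 0 < lam := by positivity
  have hl1 : lam < l₀ := by
    have : min (min l₀ l₀') δ ≤ l₀ := (min_le_left _ _).trans (min_le_left _ _)
    linarith
  have hl2 : lam < l₀' := by
    have : min (min l₀ l₀') δ ≤ l₀' := (min_le_left _ _).trans (min_le_right _ _)
    linarith
  have hl3 : lam < δ := by
    have : min (min l₀ l₀') δ ≤ δ := min_le_right _ _
    linarith
  obtain ⟨T₁, hT₁, hE₁⟩ := hN lam ⟨hl, hl1⟩
  obtain ⟨T₁', hT₁', hE₁'⟩ := hN' lam ⟨hl, hl2⟩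
  obtain ⟨hemb, hE₂⟩ := NORM.slide hF hT₁ hS hS0 hSe hSU
  have hemb' : EmbOn I4 (fun p => D.e (T₁' p)) SP := embOn_comp D.embe hT₁'.emb hT₁'.off
  -- the germs agree near the cuffs
  have near0 : ∀ p ∈ sph 0, ∀ᶠ q in 𝓝 p, S (1, T₁ q) = T₁' q := by
    intro p hp
    have hc : ContinuousAt (fun q : R4 => q.1) p := continuousAt_fst
    have hc2 : ContinuousAt (fun q : R4 => ‖q.2‖) p := continuousAt_snd.norm
    have hp2 : ‖p.2‖ < 1 := by
      obtain ⟨h1, h2⟩ := hp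
      have h3 : (p.2.1 - 0) ^ 2 + p.2.2.re ^ 2 + p.2.2.im ^ 2 = 1 / 25 := h2
      rw [Prod.norm_def]
      refine max_lt ?_ ?_
      · rw [Real.norm_eq_abs, abs_lt]
        constructor <;> nlinarith [sq_nonneg p.2.2.re, sq_nonneg p.2.2.im]
      · have h4 : ‖p.2.2‖ ^ 2 = p.2.2.re ^ 2 + p.2.2.im ^ 2 := by
          rw [← Complex.normSq_eq_norm_sq, Complex.normSq_apply]; ring
        nlinarith [sq_nonneg (p.2.1 - 0), norm_nonneg p.2.2]
    filter_upwards [hT₁.c0 p hp, hT₁'.c0 p hp,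
      hc.eventually (Metric.ball_mem_nhds _ hδ), hc2.eventually (gt_mem_nhds hp2)] with q h1 h2 h3 h4
    rw [hp.1, Real.dist_eq] at h3
    change S (1, T₁ q) = T₁' q
    rw [h1, h2, hSa]
    · simp only
      congr 2
      ring
    · simpa using h3
    · simp only
      rw [norm_smul, Real.norm_of_nonneg hl.le]
      calc lam * ‖q.2‖ ≤ lam * 1 := by gcongr
        _ < δ := by linarith
  have near1 : ∀ p ∈ sph 1, ∀ᶠ q in 𝓝 p, S (1, T₁ q) = T₁' q := by
    intro p hp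
    have hc : ContinuousAt (fun q : R4 => q.1) p := continuousAt_fst
    have hc2 : ContinuousAt (fun q : R4 => ‖q.2 - pc 1‖) p := (continuousAt_snd.sub
      continuousAt_const).norm
    have hp2 : ‖p.2 - pc 1‖ < 1 := by
      obtain ⟨h1, h2⟩ := hp
      have h3 : (p.2.1 - 1) ^ 2 + p.2.2.re ^ 2 + p.2.2.im ^ 2 = 1 / 25 := h2
      rw [Prod.norm_def]
      refine max_lt ?_ ?_
      · change ‖p.2.1 - 1‖ < 1
        rw [Real.norm_eq_abs, abs_lt]
        constructor <;> nlinarith [sq_nonneg p.2.2.re, sq_nonneg p.2.2.im]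
      · have h5 : (p.2 - pc 1).2 = p.2.2 := by
          change p.2.2 - 0 = p.2.2
          rw [sub_zero]
        rw [h5]
        have h4 : ‖p.2.2‖ ^ 2 = p.2.2.re ^ 2 + p.2.2.im ^ 2 := by
          rw [← Complex.normSq_eq_norm_sq, Complex.normSq_apply]; ring
        nlinarith [sq_nonneg (p.2.1 - 1), norm_nonneg p.2.2]
    filter_upwards [hT₁.c1 p hp, hT₁'.c1 p hp,
      hc.eventually (Metric.ball_mem_nhds _ hδ), hc2.eventually (gt_mem_nhds hp2)] with q h1 h2 h3 h4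
    rw [hp.1, Real.dist_eq] at h3
    change S (1, T₁ q) = T₁' q
    rw [h1, h2, hSb]
    · simp only
      congr 2
      ring
    · simpa using h3
    · simp only
      rw [norm_smul, Real.norm_of_nonneg hl.le]
      calc lam * ‖q.2 - pc 1‖ ≤ lam * 1 := by gcongr
        _ < δ := by linarith
  intro φ ψ hφ hψ
  have hφ1 : Thin I4 (fun p => D.e (S (1, T₁ p))) φ := (hE₂ φ).1 ((hE₁ φ).1 hφ)
  have hψ1 : Thin I4 (fun p => D.e (T₁' p)) ψ := (hE₁' ψ).1 hψ
  refine hMain W _ _ φ ψ (interior {q | S (1, T₁ q) = T₁' q}) hW hemb hemb' isOpen_interior ?_ ?_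
    hφ1 hψ1
  · rintro p (hp | hp)
    · exact mem_interior_iff_mem_nhds.2 (near0 p hp)
    · exact mem_interior_iff_mem_nhds.2 (near1 p hp)
  · intro q hq
    have h1 : q ∈ {q | S (1, T₁ q) = T₁' q} := interior_subset hq
    have h1 : S (1, T₁ q) = T₁' q := h1
    simp only [h1]

end Pool.Agent.Helper70.H
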