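import Pool.Agent.Helper70.BI.H.StN

/-!
# Project BI, stage 3 (H), section NORM: sliding along the base arc (`StSLD`)
-/

set_option autoImplicit false

open scoped Manifold ContDiff Topology ComplexConjugate
open Set Filter Pool.Agent.Helper65.Barb Pool.Agent.Helper18.BI

namespace Pool.Agent.Helper70.H

open Pool.Agent.Helper27.H (ArcD seg)
open Pool.Agent.Helper70.BI (I4 LD Eqv NearEq pc StPT StGL ld_iff ld_comp ld_congr)

namespace SLD

/-- the reparametrization of the base arc -/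
theorem exists_rep (hRM : Pool.Agent.Helper70.BI.StRM) {s₀ s₁ a b a' b' : ℝ} (h1 : s₀ < a)
    (h2 : a < b) (h3 : b < s₁) (h4 : s₀ < a') (h5 : a' < b') (h6 : b' < s₁) :
    ∃ (m : ℝ → ℝ) (η : ℝ), 0 < η ∧ ContDiff ℝ ∞ m ∧ (∀ s, 0 < deriv m s) ∧
      (∀ s, (s ≤ s₀ + η ∨ s₁ - η ≤ s) → m s = s) ∧ (∀ᶠ s in 𝓝 a, m s = s + (a' - a)) ∧
      ∀ᶠ s in 𝓝 b, m s = s + (b' - b) := by
  obtain ⟨c, hc⟩ : ∃ c : ℝ, c = 5 / 3 * (s₁ - s₀) := ⟨_, rfl⟩
  have hcpos : 0 < c := by rw [hc]; linarith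
  have hcne : c ≠ 0 := hcpos.ne'
  obtain ⟨φ, hφ⟩ : ∃ φ : ℝ → ℝ, φ = fun s => 1 / 5 + (s - s₀) / c := ⟨_, rfl⟩
  have φdef : ∀ s, φ s = 1 / 5 + (s - s₀) / c := fun s => by rw [hφ]
  have φlt : ∀ s t, s < t → φ s < φ t := by
    intro s t hst
    rw [φdef, φdef]
    have : (s - s₀) / c < (t - s₀) / c := div_lt_div_of_pos_right (by linarith) hcpos
    linarith
  have φ0 : φ s₀ = 1 / 5 := by rw [φdef]; simp
  have φ1 : φ s₁ = 4 / 5 := by
    have h01 : s₁ - s₀ = 3 / 5 * c := by rw [hc]; ring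
    rw [φdef, h01, mul_div_assoc, div_self hcne]
    norm_num
  have φc : ContDiff ℝ ∞ φ := by
    rw [hφ]
    exact contDiff_const.add ((contDiff_id.sub contDiff_const).div_const c)
  have φd : ∀ s, HasDerivAt φ (1 / c) s := by
    intro s
    rw [hφ]
    have h := (((hasDerivAt_id s).sub_const s₀).div_const c).const_add (1 / 5)
    exact h
  obtain ⟨m₀, ⟨m0c, m0d, η₀, hη₀, m0id⟩, m0a, m0b⟩ := hRM.2 (φ a) (φ b) (φ a') (φ b')
    (fun x => x + (φ a' - φ a)) (fun x => x + (φ b' - φ b))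
    (by rw [← φ0]; exact φlt _ _ h1) (φlt _ _ h2) (by rw [← φ1]; exact φlt _ _ h3)
    (by rw [← φ0]; exact φlt _ _ h4) (φlt _ _ h5) (by rw [← φ1]; exact φlt _ _ h6)
    (Eventually.of_forall fun x => contDiffAt_id.add contDiffAt_const)
    (Eventually.of_forall fun x => contDiffAt_id.add contDiffAt_const)
    (by simp) (by simp)
    (by
      have : HasDerivAt (fun x : ℝ => x + (φ a' - φ a)) 1 (φ a) :=
        (hasDerivAt_id (φ a)).add_const _
      rw [this.deriv]; exact one_pos)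
    (by
      have : HasDerivAt (fun x : ℝ => x + (φ b' - φ b)) 1 (φ b) :=
        (hasDerivAt_id (φ b)).add_const _
      rw [this.deriv]; exact one_pos)
  have key : ∀ s, s₀ + c * (φ s - 1 / 5) = s := by
    intro s
    rw [φdef]
    have : c * (1 / 5 + (s - s₀) / c - 1 / 5) = s - s₀ := by
      rw [add_sub_cancel_left]
      exact mul_div_cancel₀ _ hcne
    rw [this]; ring
  refine ⟨fun s => s₀ + c * (m₀ (φ s) - 1 / 5), c * η₀, mul_pos hcpos hη₀, ?_, ?_, ?_, ?_, ?_⟩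
  · exact contDiff_const.add (contDiff_const.mul ((m0c.comp φc).sub contDiff_const))
  · intro s
    have hm : HasDerivAt m₀ (deriv m₀ (φ s)) (φ s) :=
      (m0c.differentiable (by simp) (φ s)).hasDerivAt
    have h := (((hm.comp s (φd s)).sub_const (1 / 5)).const_mul c).const_add s₀
    have e : deriv (fun s => s₀ + c * (m₀ (φ s) - 1 / 5)) s = c * (deriv m₀ (φ s) * (1 / c)) :=
      h.deriv
    rw [e]
    have h0 := m0d (φ s)
    have h1' : 0 < 1 / c := by positivity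
    positivity
  · rintro s (hs | hs)
    · have h : φ s ≤ 1 / 5 + η₀ := by
        rw [φdef]
        have : (s - s₀) / c ≤ η₀ := by
          rw [div_le_iff₀ hcpos]; linarith
        linarith
      show s₀ + c * (m₀ (φ s) - 1 / 5) = s
      rw [m0id _ (Or.inl h), key]
    · have h : 4 / 5 - η₀ ≤ φ s := by
        have e : (4 / 5 : ℝ) = φ s₁ := φ1.symm
        rw [e, φdef, φdef]
        have : (s₁ - s) / c ≤ η₀ := by
          rw [div_le_iff₀ hcpos]; linarith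
        have e2 : (s₁ - s₀) / c - (s - s₀) / c = (s₁ - s) / c := by
          rw [← sub_div]; congr 1; ring
        linarith
      show s₀ + c * (m₀ (φ s) - 1 / 5) = s
      rw [m0id _ (Or.inr h), key]
  · have hcont : ContinuousAt φ a := φc.continuous.continuousAt
    filter_upwards [hcont.eventually m0a] with s hs
    show s₀ + c * (m₀ (φ s) - 1 / 5) = s + (a' - a)
    rw [hs]
    have k1 := key s
    have k2 := key a
    have k3 := key a'
    linarith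
  · have hcont : ContinuousAt φ b := φc.continuous.continuousAt
    filter_upwards [hcont.eventually m0b] with s hs
    show s₀ + c * (m₀ (φ s) - 1 / 5) = s + (b' - b)
    rw [hs]
    have k1 := key s
    have k2 := key b
    have k3 := key b'
    linarith

/-- the model slide -/
noncomputable def Sig (χ : R3 → ℝ) (m : ℝ → ℝ) (t : ℝ) (p : R4) : R4 :=
  (p.1 + step t * χ p.2 * (m p.1 - p.1), p.2)

theorem contDiff_Sig {χ : R3 → ℝ} {m : ℝ → ℝ} (hχ : ContDiff ℝ ∞ χ) (hm : ContDiff ℝ ∞ m) :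
    ContDiff ℝ ∞ (fun z : ℝ × R4 => Sig χ m z.1 z.2) := by
  have h1 : ContDiff ℝ ∞ (fun z : ℝ × R4 => z.2.1) := contDiff_fst.comp contDiff_snd
  have h2 : ContDiff ℝ ∞ (fun z : ℝ × R4 => z.2.2) := contDiff_snd.comp contDiff_snd
  have h3 : ContDiff ℝ ∞ (fun z : ℝ × R4 => step z.1) := contDiff_step.comp contDiff_fst
  exact (h1.add ((h3.mul (hχ.comp h2)).mul ((hm.comp h1).sub h1))).prodMk h2

theorem Sig_snd (χ : R3 → ℝ) (m : ℝ → ℝ) (t : ℝ) (p : R4) : (Sig χ m t p).2 = p.2 := rfl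

theorem Sig_zero (χ : R3 → ℝ) (m : ℝ → ℝ) (p : R4) : Sig χ m 0 p = p := by
  simp [Sig, step_of_nonpos (le_refl (0 : ℝ))]

theorem theta_mem {χ : R3 → ℝ} (hχ : ∀ x, χ x ∈ Icc (0 : ℝ) 1) (t : ℝ) (x : R3) :
    step t * χ x ∈ Icc (0 : ℝ) 1 := by
  have h1 := step_mem t
  have h2 := hχ x
  exact ⟨mul_nonneg h1.1 h2.1, mul_le_one₀ h1.2 h2.1 h2.2⟩

theorem Sig_injective {χ : R3 → ℝ} {m : ℝ → ℝ} (hχ : ∀ x, χ x ∈ Icc (0 : ℝ) 1)
    (hm : StrictMono m) (t : ℝ) : Function.Injective (Sig χ m t) := by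
  intro p q hpq
  have e20 := congrArg Prod.snd hpq
  have e10 := congrArg Prod.fst hpq
  have e2 : p.2 = q.2 := e20
  have e1 : p.1 + step t * χ p.2 * (m p.1 - p.1) = q.1 + step t * χ q.2 * (m q.1 - q.1) := e10
  rw [← e2] at e1
  obtain ⟨θ, hθ⟩ : ∃ θ : ℝ, θ = step t * χ p.2 := ⟨_, rfl⟩
  have hθm : θ ∈ Icc (0 : ℝ) 1 := by rw [hθ]; exact theta_mem hχ t p.2
  rw [← hθ] at e1
  have aux : ∀ u v : ℝ, u < v → u + θ * (m u - u) < v + θ * (m v - v) := by
    intro u v huv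
    have h1 := hm huv
    rcases hθm.1.lt_or_eq with h | h
    · have h3 : 0 < θ * (m v - m u) := mul_pos h (by linarith)
      have h4 : 0 ≤ (1 - θ) * (v - u) := mul_nonneg (by linarith [hθm.2]) (by linarith)
      nlinarith
    · rw [← h]; linarith
  have e3 : p.1 = q.1 := by
    rcases lt_trichotomy p.1 q.1 with h | h | h
    · exact absurd e1 (aux _ _ h).ne
    · exact h
    · exact absurd e1 (aux _ _ h).ne'
  exact Prod.ext e3 e2

theorem ld_Sig {χ : R3 → ℝ} {m : ℝ → ℝ} (hχs : ContDiff ℝ ∞ χ) (hms : ContDiff ℝ ∞ m)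
    (hχ : ∀ x, χ x ∈ Icc (0 : ℝ) 1) (hm : ∀ s, 0 < deriv m s) (t : ℝ) (p : R4) :
    LD (Sig χ m t) p := by
  have hs : ContDiff ℝ ∞ (Sig χ m t) := (contDiff_Sig hχs hms).comp (contDiff_prodMk_right t)
  rw [ld_iff]
  refine ⟨Eventually.of_forall fun q => hs.contDiffAt, ?_⟩
  have d1 : HasFDerivAt (fun q : R4 => q.1) (ContinuousLinearMap.fst ℝ ℝ R3) p := hasFDerivAt_fst
  have d2 : HasFDerivAt (fun q : R4 => q.2) (ContinuousLinearMap.snd ℝ ℝ R3) p := hasFDerivAt_snd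
  have d3 : HasFDerivAt χ (fderiv ℝ χ p.2) p.2 := (hχs.differentiable (by simp) p.2).hasFDerivAt
  have d4 : HasFDerivAt (fun q : R4 => χ q.2)
      ((fderiv ℝ χ p.2).comp (ContinuousLinearMap.snd ℝ ℝ R3)) p := d3.comp p d2
  have d5 : HasDerivAt m (deriv m p.1) p.1 := (hms.differentiable (by simp) p.1).hasDerivAt
  have d6 : HasFDerivAt (fun q : R4 => m q.1)
      (deriv m p.1 • ContinuousLinearMap.fst ℝ ℝ R3) p := d5.comp_hasFDerivAt p d1
  have d7 := (d1.add ((d4.const_mul (step t)).mul (d6.sub d1))).prodMk d2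
  have d8 : HasFDerivAt (Sig χ m t) _ p := d7
  rw [d8.fderiv]
  rw [injective_iff_map_eq_zero]
  intro v hv
  have hv2 : v.2 = 0 := by
    have := congrArg Prod.snd hv
    simpa using this
  have hv1 := congrArg Prod.fst hv
  simp [hv2] at hv1
  obtain ⟨θ, hθ⟩ : ∃ θ : ℝ, θ = step t * χ p.2 := ⟨_, rfl⟩
  have hθm : θ ∈ Icc (0 : ℝ) 1 := by rw [hθ]; exact theta_mem hχ t p.2
  have e : v.1 * ((1 - θ) + θ * deriv m p.1) = 0 := by
    rw [hθ]
    linarith [hv1]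
  have hpos : 0 < (1 - θ) + θ * deriv m p.1 := by
    rcases hθm.1.lt_or_eq with h | h
    · have := mul_pos h (hm p.1)
      linarith [hθm.2]
    · rw [← h]; linarith
  have e1 : v.1 = 0 := by
    rcases mul_eq_zero.1 e with h | h
    · exact h
    · exact absurd h hpos.ne'
  exact Prod.ext e1 hv2

/-- the box -/
def Kbox (l u ρ : ℝ) : Set R4 := Icc l u ×ˢ Metric.closedBall (0 : R3) ρ

theorem Sig_off {χ : R3 → ℝ} {m : ℝ → ℝ} {l u ρ : ℝ} (h0 : ∀ x, ρ < ‖x‖ → χ x = 0)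
    (hm : ∀ s, (s ≤ l ∨ u ≤ s) → m s = s) (t : ℝ) {p : R4} (hp : p ∉ Kbox l u ρ) :
    Sig χ m t p = p := by
  have key : step t * χ p.2 * (m p.1 - p.1) = 0 := by
    by_cases h1 : p.1 ≤ l ∨ u ≤ p.1
    · rw [hm _ h1, sub_self, mul_zero]
    · push Not at h1
      have h2 : ρ < ‖p.2‖ := by
        by_contra h
        push Not at h
        exact hp ⟨⟨h1.1.le, h1.2.le⟩, mem_closedBall_zero_iff.2 h⟩
      rw [h0 _ h2, mul_zero, zero_mul]
  show (p.1 + step t * χ p.2 * (m p.1 - p.1), p.2) = p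
  rw [key, add_zero]

theorem Sig_mem {χ : R3 → ℝ} {m : ℝ → ℝ} {l u ρ : ℝ} (hχ : ∀ x, χ x ∈ Icc (0 : ℝ) 1)
    (hmono : StrictMono m) (hm : ∀ s, (s ≤ l ∨ u ≤ s) → m s = s) (t : ℝ) {p : R4}
    (hp : p ∈ Kbox l u ρ) : Sig χ m t p ∈ Kbox l u ρ := by
  have hθm := theta_mem hχ t p.2
  have h1 : l ≤ m p.1 := by
    have := hmono.monotone hp.1.1
    rwa [hm l (Or.inl le_rfl)] at this
  have h2 : m p.1 ≤ u := by
    have := hmono.monotone hp.1.2
    rwa [hm u (Or.inr le_rfl)] at this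
  refine ⟨⟨?_, ?_⟩, hp.2⟩
  · show l ≤ p.1 + step t * χ p.2 * (m p.1 - p.1)
    have e : p.1 + step t * χ p.2 * (m p.1 - p.1) =
      l + ((1 - step t * χ p.2) * (p.1 - l) + step t * χ p.2 * (m p.1 - l)) := by ring
    rw [e]
    have h3 := mul_nonneg (sub_nonneg.2 hθm.2) (sub_nonneg.2 hp.1.1)
    have h4 := mul_nonneg hθm.1 (sub_nonneg.2 h1)
    linarith
  · show p.1 + step t * χ p.2 * (m p.1 - p.1) ≤ u
    have e : p.1 + step t * χ p.2 * (m p.1 - p.1) =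
      u - ((1 - step t * χ p.2) * (u - p.1) + step t * χ p.2 * (u - m p.1)) := by ring
    rw [e]
    have h3 := mul_nonneg (sub_nonneg.2 hθm.2) (sub_nonneg.2 hp.1.2)
    have h4 := mul_nonneg hθm.1 (sub_nonneg.2 h2)
    linarith

theorem isCompact_Kbox (l u ρ : ℝ) : IsCompact (Kbox l u ρ) :=
  isCompact_Icc.prod (isCompact_closedBall 0 ρ)

/-- tube lemma -/
theorem exists_tube {O : Set R4} (hO : IsOpen O) {l u : ℝ}
    (h : ∀ s ∈ Icc l u, ((s, 0) : R4) ∈ O) : ∃ ρ : ℝ, 0 < ρ ∧ Kbox l u ρ ⊆ O := by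
  have hs : Icc l u ×ˢ {(0 : R3)} ⊆ O := by
    rintro ⟨s, x⟩ ⟨h1, h2⟩
    have h3 : x = 0 := h2
    rw [h3]; exact h s h1
  obtain ⟨a, b, -, hb, h1, h2, h3⟩ := generalized_tube_lemma isCompact_Icc isCompact_singleton hO hs
  obtain ⟨ρ, hρ, hρb⟩ := Metric.nhds_basis_closedBall.mem_iff.1
    (hb.mem_nhds (h2 (mem_singleton (0 : R3))))
  exact ⟨ρ, hρ, fun p hp => h3 ⟨h1 hp.1, hρb hp.2⟩⟩

theorem isCompact_seg (s₀ s₁ : ℝ) : IsCompact (seg s₀ s₁) := by
  have : seg s₀ s₁ = Icc s₀ s₁ ×ˢ {(0 : R3)} := by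
    ext p
    constructor
    · rintro ⟨h1, h2, h3⟩
      exact ⟨⟨h1, h2⟩, h3⟩
    · rintro ⟨⟨h1, h2⟩, h3⟩
      exact ⟨h1, h2, h3⟩
  rw [this]
  exact isCompact_Icc.prod isCompact_singleton

end SLD

open SLD

theorem m_SLD (hRM : Pool.Agent.Helper70.BI.StRM) (hA1 : StA1) : StSLD := by
  classical
  intro D a b a' b' h1 h2 h3 h4 h5 h6
  obtain ⟨m, η, hη, mc, md, mid, ma, mb⟩ := exists_rep hRM h1 h2 h3 h4 h5 h6
  have mmono : StrictMono m := strictMono_of_deriv_pos md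
  -- the diffeomorphism onto its image
  obtain ⟨Φ, hL, hΦ⟩ := hA1 R4 R4 R4 I4 R4 D.J (seg D.s₀ D.s₁) (isCompact_seg _ _) D.emb.1 D.emb.2
  have so : IsOpen Φ.source := Φ.open_source
  have tgo : IsOpen Φ.target := Φ.open_target
  have Φc : ContDiffOn ℝ ∞ Φ Φ.source := contMDiffOn_iff_contDiffOn.1 Φ.contMDiffOn_toFun
  have Φs : ContDiffOn ℝ ∞ Φ.symm Φ.target := contMDiffOn_iff_contDiffOn.1 Φ.contMDiffOn_invFun
  have Φl : ∀ p ∈ Φ.source, Φ.symm (Φ p) = p := fun p hp => Φ.left_inv hp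
  have Φr : ∀ y ∈ Φ.target, Φ (Φ.symm y) = y := fun y hy => Φ.right_inv hy
  have Φmt : ∀ p ∈ Φ.source, Φ p ∈ Φ.target := fun p hp => Φ.map_source hp
  have Φms : ∀ y ∈ Φ.target, Φ.symm y ∈ Φ.source := fun y hy => Φ.map_target hy
  have Φinj : ∀ p ∈ Φ.source, ∀ q ∈ Φ.source, Φ p = Φ q → p = q := by
    intro p hp q hq h
    rw [← Φl p hp, h, Φl q hq]
  have ldΦ : ∀ p ∈ Φ.source, LD Φ p := fun p hp => ⟨Φ, hp, fun _ _ => rfl⟩
  have ldΦs : ∀ y ∈ Φ.target, LD Φ.symm y := fun y hy => ⟨Φ.symm, hy, fun _ _ => rfl⟩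
  -- the tube
  have hO : IsOpen (Φ.source ∩ Φ ⁻¹' D.U) := Φc.continuousOn.isOpen_inter_preimage so D.openU
  obtain ⟨ρ, hρ, hK⟩ := exists_tube (l := D.s₀ + η) (u := D.s₁ - η) hO (by
    intro s hs
    have hs1 : D.s₀ ≤ s := by linarith [hs.1]
    have hs2 : s ≤ D.s₁ := by linarith [hs.2]
    have hp : ((s, 0) : R4) ∈ Φ.source := hL ⟨hs1, hs2, rfl⟩
    refine ⟨hp, ?_⟩
    show Φ (s, 0) ∈ D.U
    rw [hΦ _ hp, D.core s ⟨hs1, hs2⟩]
    exact D.mem s ⟨by linarith [hs.1], by linarith [hs.2]⟩)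
  obtain ⟨K, hKdef⟩ : ∃ K : Set R4, K = Kbox (D.s₀ + η) (D.s₁ - η) ρ := ⟨_, rfl⟩
  rw [← hKdef] at hK
  have Kc : IsCompact K := by rw [hKdef]; exact isCompact_Kbox _ _ _
  have Ks : K ⊆ Φ.source := fun p hp => (hK hp).1
  have KU : ∀ p ∈ K, Φ p ∈ D.U := fun p hp => (hK hp).2
  have CK : IsClosed (Φ '' K) := (Kc.image_of_continuousOn (Φc.continuousOn.mono Ks)).isClosed
  have Ct : Φ '' K ⊆ Φ.target := by
    rintro y ⟨p, hp, rfl⟩
    exact Φmt p (Ks hp)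
  -- the bump function
  obtain ⟨χ, χc, χm, χ1, χ0⟩ : ∃ χ : R3 → ℝ, ContDiff ℝ ∞ χ ∧ (∀ x, χ x ∈ Icc (0 : ℝ) 1) ∧
      (∀ x, ‖x‖ ≤ ρ / 3 → χ x = 1) ∧ (∀ x, ρ < ‖x‖ → χ x = 0) := by
    obtain ⟨f⟩ : Nonempty (ContDiffBump (0 : R3)) := inferInstance
    refine ⟨(⟨ρ / 3, ρ / 2, by positivity, by linarith⟩ : ContDiffBump (0 : R3)), ?_, ?_, ?_, ?_⟩
    · exact ContDiffBump.contDiff _
    · exact fun x => ⟨ContDiffBump.nonneg _, ContDiffBump.le_one _⟩
    · exact fun x hx => ContDiffBump.one_of_mem_closedBall _ (mem_closedBall_zero_iff.2 hx)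
    · intro x hx
      refine ContDiffBump.zero_of_le_dist _ ?_
      rw [dist_zero_right]
      show ρ / 2 ≤ ‖x‖
      linarith
  obtain ⟨σ, hσ⟩ : ∃ σ : ℝ → R4 → R4, σ = Sig χ m := ⟨_, rfl⟩
  have σc : ContDiff ℝ ∞ (fun z : ℝ × R4 => σ z.1 z.2) := by rw [hσ]; exact contDiff_Sig χc mc
  have σ2 : ∀ t p, (σ t p).2 = p.2 := by rw [hσ]; exact fun _ _ => rfl
  have σ0 : ∀ p, σ 0 p = p := by rw [hσ]; exact Sig_zero χ m
  have σi : ∀ t, Function.Injective (σ t) := by rw [hσ]; exact Sig_injective χm mmono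
  have σld : ∀ t p, LD (σ t) p := by rw [hσ]; exact ld_Sig χc mc χm md
  have σoff : ∀ t p, p ∉ K → σ t p = p := by
    rw [hσ, hKdef]; exact fun t p hp => Sig_off χ0 mid t hp
  have σmem : ∀ t, ∀ p ∈ K, σ t p ∈ K := by
    rw [hσ, hKdef]; exact fun t p hp => Sig_mem χm mmono mid t hp
  have σsrc : ∀ t, ∀ p ∈ Φ.source, σ t p ∈ Φ.source := by
    intro t p hp
    by_cases h : p ∈ K
    · exact Ks (σmem t p h)
    · rw [σoff t p h]; exact hp
  obtain ⟨S, hS⟩ : ∃ S : ℝ × R4 → R4, S = fun z =>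
      if z.2 ∈ Φ '' K then Φ (σ z.1 (Φ.symm z.2)) else z.2 := ⟨_, rfl⟩
  have Sin : ∀ t y, y ∈ Φ '' K → S (t, y) = Φ (σ t (Φ.symm y)) := by
    intro t y hy; rw [hS]; exact if_pos hy
  have Sout : ∀ t y, y ∉ Φ '' K → S (t, y) = y := by
    intro t y hy; rw [hS]; exact if_neg hy
  have Stgt : ∀ t y, y ∈ Φ.target → S (t, y) = Φ (σ t (Φ.symm y)) := by
    intro t y hy
    by_cases h : y ∈ Φ '' K
    · exact Sin t y h
    · have h' : Φ.symm y ∉ K := fun h' => h ⟨_, h', Φr y hy⟩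
      rw [Sout t y h, σoff t _ h', Φr y hy]
  have symK : ∀ y ∈ Φ '' K, Φ.symm y ∈ K := by
    rintro y ⟨p, hp, rfl⟩
    rw [Φl p (Ks hp)]; exact hp
  have Smem : ∀ t y, y ∈ Φ '' K → S (t, y) ∈ Φ '' K := by
    intro t y hy
    rw [Sin t y hy]
    exact ⟨_, σmem t _ (symK y hy), rfl⟩
  -- smoothness
  have Sc : ContDiff ℝ ∞ S := by
    rw [contDiff_iff_contDiffAt]
    rintro ⟨t, y⟩
    by_cases hy : y ∈ Φ.target
    · have e : S =ᶠ[𝓝 (t, y)] fun z => Φ (σ z.1 (Φ.symm z.2)) := by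
        have : ∀ᶠ z : ℝ × R4 in 𝓝 (t, y), z.2 ∈ Φ.target :=
          continuousAt_snd.eventually (tgo.mem_nhds hy)
        filter_upwards [this] with z hz
        exact Stgt z.1 z.2 hz
      refine ContDiffAt.congr_of_eventuallyEq ?_ e
      have c1 : ContDiffAt ℝ ∞ (fun z : ℝ × R4 => Φ.symm z.2) (t, y) :=
        (Φs.contDiffAt (tgo.mem_nhds hy)).comp (t, y) contDiffAt_snd
      have c2 : ContDiffAt ℝ ∞ (fun z : ℝ × R4 => σ z.1 (Φ.symm z.2)) (t, y) :=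
        ContDiffAt.comp (t, y) (g := fun z : ℝ × R4 => σ z.1 z.2)
          (f := fun z : ℝ × R4 => (z.1, Φ.symm z.2)) σc.contDiffAt (contDiffAt_fst.prodMk c1)
      have hsrc : σ t (Φ.symm y) ∈ Φ.source := σsrc t _ (Φms y hy)
      exact ContDiffAt.comp (t, y) (g := Φ) (f := fun z : ℝ × R4 => σ z.1 (Φ.symm z.2))
        (Φc.contDiffAt (so.mem_nhds hsrc)) c2
    · have hy' : y ∉ Φ '' K := fun h => hy (Ct h)
      have e : S =ᶠ[𝓝 (t, y)] fun z => z.2 := by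
        have : ∀ᶠ z : ℝ × R4 in 𝓝 (t, y), z.2 ∈ (Φ '' K)ᶜ :=
          continuousAt_snd.eventually (CK.isOpen_compl.mem_nhds hy')
        filter_upwards [this] with z hz
        exact Sout z.1 z.2 hz
      exact contDiffAt_snd.congr_of_eventuallyEq e
  -- embeddings
  have Se : ∀ t, EmbOn I4 (fun y => S (t, y)) univ := by
    intro t
    refine ⟨fun y _ => ?_, ?_⟩
    · by_cases hy : y ∈ Φ.target
      · have l1 : LD (σ t ∘ Φ.symm) y := ld_comp (ldΦs y hy) (σld t _)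
        have l2 : LD (Φ ∘ (σ t ∘ Φ.symm)) y := ld_comp l1 (ldΦ _ (σsrc t _ (Φms y hy)))
        refine ld_congr ?_ l2
        filter_upwards [tgo.mem_nhds hy] with z hz
        exact (Stgt t z hz).symm
      · have hy' : y ∉ Φ '' K := fun h => hy (Ct h)
        have l0 : LD (fun z : R4 => z) y := by
          rw [ld_iff]
          refine ⟨Eventually.of_forall fun q => contDiffAt_id, ?_⟩
          rw [fderiv_fun_id]
          exact fun v w h => h
        refine ld_congr ?_ l0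
        filter_upwards [CK.isOpen_compl.mem_nhds hy'] with z hz
        exact (Sout t z hz).symm
    · intro y _ y' _ h
      have h : S (t, y) = S (t, y') := h
      by_cases hy : y ∈ Φ '' K
      · by_cases hy' : y' ∈ Φ '' K
        · rw [Sin t y hy, Sin t y' hy'] at h
          have e := σi t (Φinj _ (Ks (σmem t _ (symK y hy))) _ (Ks (σmem t _ (symK y' hy'))) h)
          rw [← Φr y (Ct hy), e, Φr y' (Ct hy')]
        · exfalso
          have h7 := Smem t y hy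
          rw [h, Sout t y' hy'] at h7
          exact hy' h7
      · by_cases hy' : y' ∈ Φ '' K
        · exfalso
          have h7 := Smem t y' hy'
          rw [← h, Sout t y hy] at h7
          exact hy h7
        · rwa [Sout t y hy, Sout t y' hy'] at h
  -- the values near the two points
  have near : ∀ c c' : ℝ, D.s₀ < c → c < D.s₁ → (∀ᶠ s in 𝓝 c, m s = s + (c' - c)) →
      ∃ δ : ℝ, 0 < δ ∧ ∀ p : R4, |p.1 - c| < δ → ‖p.2‖ < δ →
        S (1, D.J p) = D.J (p.1 + (c' - c), p.2) := by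
    intro c c' hc1 hc2 hmc
    obtain ⟨δ₁, hδ₁, H1⟩ := Metric.eventually_nhds_iff.1 hmc
    have hsrc : ((c, 0) : R4) ∈ Φ.source := hL ⟨hc1.le, hc2.le, rfl⟩
    obtain ⟨δ₂, hδ₂, H2⟩ := Metric.isOpen_iff.1 so _ hsrc
    refine ⟨min (min δ₁ δ₂) (ρ / 3), lt_min (lt_min hδ₁ hδ₂) (by positivity), ?_⟩
    intro p hp1 hp2
    have b1 : |p.1 - c| < δ₁ := hp1.trans_le ((min_le_left _ _).trans (min_le_left _ _))
    have b2 : |p.1 - c| < δ₂ := hp1.trans_le ((min_le_left _ _).trans (min_le_right _ _))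
    have b3 : ‖p.2‖ < δ₂ := hp2.trans_le ((min_le_left _ _).trans (min_le_right _ _))
    have b4 : ‖p.2‖ ≤ ρ / 3 := (hp2.trans_le (min_le_right _ _)).le
    have hps : p ∈ Φ.source := by
      refine H2 ?_
      rw [Metric.mem_ball, Prod.dist_eq]
      refine max_lt ?_ ?_
      · show dist p.1 c < δ₂
        rwa [Real.dist_eq]
      · show dist p.2 0 < δ₂
        rwa [dist_zero_right]
    have hm1 : m p.1 = p.1 + (c' - c) := H1 (by rwa [Real.dist_eq])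
    have e1 : σ 1 p = (p.1 + (c' - c), p.2) := by
      rw [hσ]
      show (p.1 + step 1 * χ p.2 * (m p.1 - p.1), p.2) = (p.1 + (c' - c), p.2)
      rw [step_of_one_le le_rfl, χ1 _ b4, hm1]
      congr 1; ring
    have hs' : σ 1 p ∈ Φ.source := σsrc 1 p hps
    rw [← hΦ p hps, Stgt 1 _ (Φmt p hps), Φl p hps, hΦ _ hs', e1]
  obtain ⟨δa, hδa, Ha⟩ := near a a' h1 (h2.trans h3) ma
  obtain ⟨δb, hδb, Hb⟩ := near b b' (h1.trans h2) h3 mb
  refine ⟨S, min δa δb, Sc, ?_, lt_min hδa hδb, fun t _ => Se t, ?_, ?_, ?_⟩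
  · intro y
    by_cases hy : y ∈ Φ '' K
    · rw [Sin 0 y hy, σ0, Φr y (Ct hy)]
    · exact Sout 0 y hy
  · rintro t - y ⟨hyU, hyA⟩
    by_cases hy : y ∈ Φ '' K
    · have hk := symK y hy
      have hk' := σmem t _ hk
      rw [Sin t y hy]
      refine ⟨KU _ hk', ?_⟩
      rintro ⟨q, hq, hqe⟩
      have hq' : q ∈ seg D.s₀ D.s₁ := hq
      have hqs : q ∈ Φ.source := hL hq'
      rw [← hΦ q hqs] at hqe
      have e : q = σ t (Φ.symm y) := Φinj _ hqs _ (Ks hk') hqe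
      have e2 : (Φ.symm y).2 = 0 := by
        rw [← σ2 t (Φ.symm y), ← e]; exact hq'.2.2
      apply hyA
      refine ⟨Φ.symm y, ?_, ?_⟩
      · rw [hKdef] at hk
        have hk1 := hk.1
        show D.s₀ ≤ (Φ.symm y).1 ∧ (Φ.symm y).1 ≤ D.s₁ ∧ (Φ.symm y).2 = 0
        exact ⟨by linarith [hk1.1], by linarith [hk1.2], e2⟩
      · rw [← hΦ _ (Ks hk), Φr y (Ct hy)]
    · rw [Sout t y hy]; exact ⟨hyU, hyA⟩
  · exact fun p hp1 hp2 => Ha p (hp1.trans_le (min_le_left _ _)) (hp2.trans_le (min_le_left _ _))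
  · exact fun p hp1 hp2 => Hb p (hp1.trans_le (min_le_right _ _)) (hp2.trans_le (min_le_right _ _))

end Pool.Agent.Helper70.H
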