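import Pool.Agent.Helper70.BI.H.StN

/-!
# Project BI, stage 3 (H): germs close to the identity which preserve the vertical line
-/

set_option autoImplicit false

open scoped Manifold ContDiff Topology ComplexConjugate
open Set Filter Pool.Agent.Helper65.Barb Pool.Agent.Helper18.BI

namespace Pool.Agent.Helper70.H

open Pool.Agent.Helper27.H (ArcD seg)
open Pool.Agent.Helper70.BI (I4 LD Eqv NearEq pc StPT StGL)

namespace SML

variable {E : Type} [NormedAddCommGroup E] [NormedSpace ℝ E]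

private theorem smooth_aux (b : E → ℝ) (hb : ContDiff ℝ ∞ b) (hb0 : ∀ x, 2 ≤ ‖x‖ → b x = 0)
    (h : E → E) (y₀ : E) (r : ℝ) (hr : 0 < r)
    (hh : ∀ y, ‖y - y₀‖ < 3 * r → ContDiffAt ℝ ∞ h y) :
    ContDiff ℝ ∞ (fun y => b (r⁻¹ • (y - y₀)) • h y) := by
  rw [contDiff_iff_contDiffAt]
  intro y
  by_cases hy : ‖y - y₀‖ < 3 * r
  · refine ContDiffAt.smul ?_ (hh y hy)
    exact (hb.comp (contDiff_const.smul (contDiff_id.sub contDiff_const))).contDiffAt
  · have h1 : ∀ᶠ z in 𝓝 y, 2 * r < ‖z - y₀‖ := by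
      have hc : Continuous fun z : E => ‖z - y₀‖ := by fun_prop
      exact hc.continuousAt.eventually (lt_mem_nhds (by linarith [not_lt.1 hy]))
    have h2 : (fun y => b (r⁻¹ • (y - y₀)) • h y) =ᶠ[𝓝 y] fun _ => (0 : E) := by
      filter_upwards [h1] with z hz
      rw [hb0, zero_smul]
      rw [norm_smul, norm_inv, Real.norm_of_nonneg hr.le, ← div_eq_inv_mul, le_div_iff₀ hr]
      exact hz.le
    exact contDiffAt_const.congr_of_eventuallyEq h2

private theorem lip_aux (b : E → ℝ) (K c : ℝ) (hK : 0 ≤ K) (hc : 0 ≤ c)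
    (hb : ∀ x y, ‖b x - b y‖ ≤ K * ‖x - y‖) (hb1 : ∀ x, ‖b x‖ ≤ 1)
    (hb0 : ∀ x, 2 ≤ ‖x‖ → b x = 0)
    (h : E → E) (y₀ : E) (r : ℝ) (hr : 0 < r) (h0 : h y₀ = 0)
    (hh : ∀ x y, ‖x - y₀‖ ≤ 2 * r → ‖y - y₀‖ ≤ 2 * r → ‖h x - h y‖ ≤ c * ‖x - y‖) (x y : E) :
    ‖b (r⁻¹ • (x - y₀)) • h x - b (r⁻¹ • (y - y₀)) • h y‖ ≤ c * (1 + 2 * K) * ‖x - y‖ := by
  have hout : ∀ z : E, 2 * r < ‖z - y₀‖ → b (r⁻¹ • (z - y₀)) = 0 := by
    intro z hz
    apply hb0
    rw [norm_smul, norm_inv, Real.norm_of_nonneg hr.le, ← div_eq_inv_mul, le_div_iff₀ hr]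
    exact hz.le
  have hbd : ∀ z : E, ‖z - y₀‖ ≤ 2 * r → ‖h z‖ ≤ c * (2 * r) := by
    intro z hz
    have := hh z y₀ hz (by rw [sub_self, norm_zero]; positivity)
    rw [h0, sub_zero] at this
    exact this.trans (by gcongr)
  have hbl : ∀ z w : E, ‖b (r⁻¹ • (z - y₀)) - b (r⁻¹ • (w - y₀))‖ ≤ K * (r⁻¹ * ‖z - w‖) := by
    intro z w
    refine (hb _ _).trans (le_of_eq ?_)
    rw [← smul_sub, norm_smul, norm_inv, Real.norm_of_nonneg hr.le]
    congr 3
    abel
  have hone : ∀ z w : E, ‖z - y₀‖ ≤ 2 * r →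
      ‖(b (r⁻¹ • (z - y₀)) - b (r⁻¹ • (w - y₀))) • h z‖ ≤ c * (2 * K) * ‖z - w‖ := by
    intro z w hz
    rw [norm_smul]
    calc _ ≤ (K * (r⁻¹ * ‖z - w‖)) * (c * (2 * r)) := by
          gcongr
          · exact hbl z w
          · exact hbd z hz
      _ = c * (2 * K) * ‖z - w‖ := by field_simp
  have key : ∀ x y : E, ‖x - y₀‖ ≤ 2 * r →
      ‖b (r⁻¹ • (x - y₀)) • h x - b (r⁻¹ • (y - y₀)) • h y‖ ≤ c * (1 + 2 * K) * ‖x - y‖ := by
    intro x y hx
    by_cases hy : ‖y - y₀‖ ≤ 2 * r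
    · have e : b (r⁻¹ • (x - y₀)) • h x - b (r⁻¹ • (y - y₀)) • h y =
          (b (r⁻¹ • (x - y₀)) - b (r⁻¹ • (y - y₀))) • h x +
            b (r⁻¹ • (y - y₀)) • (h x - h y) := by
        have e' : ∀ (s t : ℝ) (u v : E), s • u - t • v = (s - t) • u + t • (u - v) := by
          intro s t u v
          rw [sub_smul, smul_sub]; abel
        exact e' _ _ _ _
      rw [e]
      refine (norm_add_le _ _).trans ?_
      have h1 := hone x y hx
      have h2 : ‖b (r⁻¹ • (y - y₀)) • (h x - h y)‖ ≤ 1 * (c * ‖x - y‖) := by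
        rw [norm_smul]
        gcongr
        · exact hb1 _
        · exact hh x y hx hy
      calc _ ≤ c * (2 * K) * ‖x - y‖ + 1 * (c * ‖x - y‖) := add_le_add h1 h2
        _ = c * (1 + 2 * K) * ‖x - y‖ := by ring
    · have e : b (r⁻¹ • (x - y₀)) • h x - b (r⁻¹ • (y - y₀)) • h y =
          (b (r⁻¹ • (x - y₀)) - b (r⁻¹ • (y - y₀))) • h x := by
        rw [hout y (not_le.1 hy), zero_smul, sub_zero, sub_zero]
      rw [e]
      refine (hone x y hx).trans ?_
      have : 0 ≤ c * ‖x - y‖ := by positivity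
      nlinarith
  by_cases hx : ‖x - y₀‖ ≤ 2 * r
  · exact key x y hx
  by_cases hy : ‖y - y₀‖ ≤ 2 * r
  · rw [norm_sub_rev, norm_sub_rev x y]
    exact key y x hy
  · rw [hout x (not_le.1 hx), hout y (not_le.1 hy), zero_smul, zero_smul, sub_zero, norm_zero]
    positivity

end SML

open SML in
theorem m_SML (hPT : StPT) : StSML := by
  let B : ContDiffBump (0 : R4) := ⟨1, 2, one_pos, one_lt_two⟩
  have hBs : ContDiff ℝ ∞ (B : R4 → ℝ) := B.contDiff
  obtain ⟨K₀, hK₀⟩ := (B.hasCompactSupport.fderiv ℝ).exists_bound_of_continuous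
    (hBs.continuous_fderiv (by simp))
  set K : ℝ := max K₀ 0 with hKdef
  have hK : 0 ≤ K := le_max_right _ _
  have hBl : ∀ x y, ‖B x - B y‖ ≤ K * ‖x - y‖ := by
    intro x y
    exact Convex.norm_image_sub_le_of_norm_fderiv_le (s := univ)
      (fun z _ => hBs.differentiable (by simp) z)
      (fun z _ => (hK₀ z).trans (le_max_left _ _)) convex_univ (mem_univ _) (mem_univ _)
  have hB1 : ∀ x, ‖B x‖ ≤ 1 := fun x => by
    rw [Real.norm_of_nonneg B.nonneg]; exact B.le_one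
  have hB0 : ∀ x, 2 ≤ ‖x‖ → B x = 0 := fun x hx =>
    B.zero_of_le_dist (by rw [dist_zero_right]; exact hx)
  refine ⟨1 / (2 * (1 + 2 * K)), by positivity, ?_⟩
  set c : ℝ := 1 / (2 * (1 + 2 * K)) with hc
  have hc0 : 0 < c := by positivity
  have hcK : c * (1 + 2 * K) = 1 / 2 := by rw [hc]; field_simp
  intro U y₀ f hU hy₀ hf hfix hline hd
  have hf0 : ContDiffAt ℝ ∞ f y₀ := hf.self_of_nhds
  have hcont : ContinuousAt (fun y => ‖fderiv ℝ f y - ContinuousLinearMap.id ℝ R4‖) y₀ := by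
    have h1 : ContDiffAt ℝ ∞ (fderiv ℝ f) y₀ := hf0.fderiv_right (by simp)
    exact (h1.continuousAt.sub continuousAt_const).norm
  have hev : ∀ᶠ y in 𝓝 y₀, ContDiffAt ℝ ∞ f y ∧
      ‖fderiv ℝ f y - ContinuousLinearMap.id ℝ R4‖ < c ∧ y ∈ U ∧ (y.2 = 0 → (f y).2 = 0) :=
    hf.and ((hcont.eventually (gt_mem_nhds hd)).and
      (Filter.Eventually.and (hU.mem_nhds hy₀) hline))
  obtain ⟨ε, hε, hball⟩ := Metric.eventually_nhds_iff.1 hev
  set r : ℝ := ε / 4 with hr
  have hr0 : 0 < r := by positivity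
  have hb3 : ∀ y, ‖y - y₀‖ < 3 * r → ContDiffAt ℝ ∞ f y ∧
      ‖fderiv ℝ f y - ContinuousLinearMap.id ℝ R4‖ < c ∧ y ∈ U ∧ (y.2 = 0 → (f y).2 = 0) := by
    intro y hy
    apply hball
    rw [dist_eq_norm]
    linarith
  set h : R4 → R4 := fun y => f y - y with hh
  have hhs : ∀ y, ‖y - y₀‖ < 3 * r → ContDiffAt ℝ ∞ h y := fun y hy =>
    (hb3 y hy).1.sub contDiffAt_id
  have hhl : ∀ x y, ‖x - y₀‖ ≤ 2 * r → ‖y - y₀‖ ≤ 2 * r → ‖h x - h y‖ ≤ c * ‖x - y‖ := by
    intro x y hx hy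
    have hfd : ∀ z ∈ Metric.ball y₀ (3 * r), HasFDerivWithinAt h
        (fderiv ℝ f z - ContinuousLinearMap.id ℝ R4) (Metric.ball y₀ (3 * r)) z := by
      intro z hz
      rw [Metric.mem_ball, dist_eq_norm] at hz
      exact (((hb3 z hz).1.differentiableAt (by simp)).hasFDerivAt.sub
        (hasFDerivAt_id z)).hasFDerivWithinAt
    refine Convex.norm_image_sub_le_of_norm_hasFDerivWithin_le hfd ?_ (convex_ball _ _) ?_ ?_
    · intro z hz
      rw [Metric.mem_ball, dist_eq_norm] at hz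
      exact (hb3 z hz).2.1.le
    · rw [Metric.mem_ball, dist_eq_norm]; linarith
    · rw [Metric.mem_ball, dist_eq_norm]; linarith
  have hsm := smooth_aux (fun x => B x) hBs hB0 h y₀ r hr0 hhs
  have hstep : ∀ t : ℝ, ‖step t‖ ≤ 1 := by
    intro t
    rw [step, Real.norm_of_nonneg (Real.smoothTransition.nonneg t)]
    exact Real.smoothTransition.le_one t
  set g : ℝ × R4 → R4 := fun q => step q.1 • (B (r⁻¹ • (q.2 - y₀)) • h q.2) with hg
  have hgl : ∀ t x y, ‖g (t, x) - g (t, y)‖ ≤ 1 / 2 * ‖x - y‖ := by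
    intro t x y
    have h1 := lip_aux (fun x => B x) K c hK hc0.le hBl hB1 hB0 h y₀ r hr0
      (by simp [hh, hfix]) hhl x y
    rw [hcK] at h1
    simp only [hg]
    rw [← smul_sub, norm_smul]
    calc _ ≤ 1 * (1 / 2 * ‖x - y‖) := by
          gcongr
          exact hstep t
      _ = _ := one_mul _
  have hg0 : ∀ t y, 2 * r < ‖y - y₀‖ → g (t, y) = 0 := by
    intro t y hy
    have h0 : B (r⁻¹ • (y - y₀)) = 0 := by
      apply hB0
      rw [norm_smul, norm_inv, Real.norm_of_nonneg hr0.le, ← div_eq_inv_mul, le_div_iff₀ hr0]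
      exact hy.le
    simp only [hg]
    rw [h0, zero_smul, smul_zero]
  have hgline : ∀ (t : ℝ) (y : R4), y.2 = 0 → (g (t, y)).2 = 0 := by
    intro t y hy
    by_cases hyr : ‖y - y₀‖ ≤ 2 * r
    · have h1 : (f y).2 = 0 := (hb3 y (by linarith)).2.2.2 hy
      have h2 : (h y).2 = 0 := by
        simp only [hh]
        rw [Prod.snd_sub, h1, hy, sub_zero]
      simp only [hg]
      rw [Prod.smul_snd, Prod.smul_snd, h2, smul_zero, smul_zero]
    · rw [hg0 t y (not_le.1 hyr)]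
      rfl
  obtain ⟨F, hF⟩ := hPT R4 g
    ((Real.smoothTransition.contDiff.comp contDiff_fst).smul (hsm.comp contDiff_snd)) hgl
  refine ⟨F, fun y => ?_, ⟨Metric.closedBall y₀ (2 * r), isCompact_closedBall _ _, ?_, ?_⟩,
    ?_, ?_⟩
  · rw [hF]
    simp [hg, step, Real.smoothTransition.zero]
  · intro y hy
    rw [Metric.mem_closedBall, dist_eq_norm] at hy
    exact (hb3 y (by linarith)).2.2.1
  · intro t y hy
    rw [Metric.mem_closedBall, dist_eq_norm, not_le] at hy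
    rw [hF, hg0 t y hy, add_zero]
  · intro t y
    rw [hF, Prod.snd_add]
    constructor
    · intro h1
      by_contra h2
      have h3 : (g (t, (y.1, 0))).2 = 0 := hgline t (y.1, 0) rfl
      have h4 : ‖(g (t, y)).2‖ ≤ ‖g (t, y) - g (t, (y.1, 0))‖ := by
        calc ‖(g (t, y)).2‖ = ‖(g (t, y) - g (t, (y.1, 0))).2‖ := by
              rw [Prod.snd_sub, h3, sub_zero]
          _ ≤ _ := norm_snd_le _
      have h5 : ‖y - (y.1, (0 : R3))‖ = ‖y.2‖ := by
        have e : y - (y.1, (0 : R3)) = ((0 : ℝ), y.2) := by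
          ext <;> simp
        rw [e, Prod.norm_def, norm_zero]
        exact max_eq_right (norm_nonneg _)
      have h6 := h4.trans (hgl t y (y.1, 0))
      rw [h5] at h6
      have h7 : (g (t, y)).2 = - y.2 := eq_neg_of_add_eq_zero_right h1
      rw [h7, norm_neg] at h6
      have h8 : 0 < ‖y.2‖ := norm_pos_iff.2 h2
      linarith
    · intro h1
      rw [h1, hgline t y h1, add_zero]
  · filter_upwards [Metric.ball_mem_nhds y₀ hr0] with y hy
    rw [Metric.mem_ball, dist_eq_norm] at hy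
    have h1 : B (r⁻¹ • (y - y₀)) = 1 := by
      apply B.one_of_mem_closedBall
      rw [Metric.mem_closedBall, dist_zero_right, norm_smul, norm_inv,
        Real.norm_of_nonneg hr0.le, ← div_eq_inv_mul, div_le_iff₀ hr0]
      change ‖y - y₀‖ ≤ 1 * r
      linarith
    rw [hF]
    simp only [hg]
    rw [h1, step, Real.smoothTransition.one, one_smul, one_smul]
    simp [hh]

end Pool.Agent.Helper70.H
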