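import Pool.Agent.Helper70.BI.AsmE
import Pool.Agent.Helper70.BI.H.M_SML
import Pool.Agent.Helper70.BI.H.M_GLL
import Pool.Agent.Helper70.BI.H.M_LOCL
import Pool.Agent.Helper70.BI.H.M_CEN
import Pool.Agent.Helper70.BI.H.M_NCT
import Pool.Agent.Helper70.BI.H.M_SLD
import Pool.Agent.Helper70.BI.H.M_NORM

/-!
# Project BI, stage 3 (H), section NORM: assembly, `StNORM` unconditionally
-/

set_option autoImplicit false

namespace Pool.Agent.Helper70.H

open Pool.Agent.Helper18.BI (hA1)
open Pool.Agent.Helper70.BI (hPT hGL hCL hFam hDET hRM hMain2)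

theorem hSML : StSML := m_SML hPT
theorem hGLL : StGLL := m_GLL hSML hGL
theorem hLOCL : StLOCL := m_LOCL hSML hGLL
theorem hCEN : StCEN := m_CEN hLOCL
theorem hNCT : StNCT := m_NCT hCEN hCL hFam hDET hA1
theorem hSLD : StSLD := m_SLD hRM hA1
theorem hNORM : Pool.Agent.Helper27.H.StNORM := m_NORM hNCT hSLD hFam hMain2

end Pool.Agent.Helper70.H
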