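import Pool.Agent.Helper27.BI.H.StH1

/-!
# Project BI, stage 3 (H), section NORM: normalization of the crossing germs

Statements (as `Prop` definitions) with complete proofs in the docstrings.  A module `M_X` proves
`theorem m_X : StX` (possibly from other statements as hypotheses `(h : StY)`).

Plan.  A crossing germ `T` (`ArcD.XG`) has two flat balls, each of which meets the base arc in its
centre.  (1) By a precomposition with an isotopy of `R4` supported near the two centres and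
preserving the vertical lines through the centres we make `T` equal to a translate of `D.J` near the two
centres (`StCEN`).  (2) We contract the two flat balls (`StNCT`).  (3) We slide the two small balls along
the base arc (`StSLD`) to prescribed positions.  Any two germs normalized in this way have the same cuffs, and the
main theorem of stage 2 (`StMain2`) applies (`StNORM`).
-/

set_option autoImplicit false

open scoped Manifold ContDiff Topology ComplexConjugate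
open Set Filter Pool.Agent.Helper65.Barb Pool.Agent.Helper18.BI

namespace Pool.Agent.Helper70.H

open Pool.Agent.Helper27.H (ArcD seg)
open Pool.Agent.Helper70.BI (I4 LD Eqv NearEq pc StPT StGL)

/-- the centre of `flat 0` -/
noncomputable def z0 : R4 := (1 / 2, ((0 : ℝ), (0 : ℂ)))

/-- The germ of `f` at `y₀` is realized by the end of an isotopy of `R4`, starting at the identity, with
support in a compact subset of `U`, which preserves the vertical line `{y | y.2 = 0}`. -/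
def RealL (U : Set R4) (y₀ : R4) (f : R4 → R4) : Prop :=
  ∃ G : DFam I4 R4, (∀ y, G.f (0, y) = y) ∧
    (∃ C : Set R4, IsCompact C ∧ C ⊆ U ∧ ∀ t y, y ∉ C → G.f (t, y) = y) ∧
    (∀ t y, (G.f (t, y)).2 = 0 ↔ y.2 = 0) ∧ ∀ᶠ y in 𝓝 y₀, G.f (1, y) = f y

/-- **SML** (germs close to the identity which preserve the line) (uses `StPT`).
*Proof.* Adapt `Pool/Agent/Helper70/BI/M_SM.lean` (`m_SM`, for `E = R4`; copy its auxiliary lemmas `smooth_aux`, `lip_aux`).  Choose the radius `ε` there so small that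
in addition `y.2 = 0 → (f y).2 = 0` for `‖y - y₀‖ < ε`.  The family is `F.f (t, y) = y + g (t, y)`, `g (t, y) = step t • (B (r⁻¹ • (y - y₀)) • (f y - y))`, and `g (t, ·)` is
`1/2`-Lipschitz.  If `y.2 = 0` then `(g (t, y)).2 = 0`: either the bump function vanishes or `y` is near `y₀` and `(f y).2 = 0 = y.2`; so `(F.f (t, y)).2 = 0`.
If `y.2 ≠ 0`, let `y' = (y.1, 0)`: `(g (t, y')).2 = 0`, so `‖(g (t, y)).2‖ = ‖(g (t, y) - g (t, y')).2‖ ≤ ‖g (t, y) - g (t, y')‖ ≤ 1/2 ‖y - y'‖ = 1/2 ‖y.2‖ < ‖y.2‖`, and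
`(F.f (t, y)).2 = y.2 + (g (t, y)).2 ≠ 0`. -/
def StSML : Prop :=
  ∃ c : ℝ, 0 < c ∧ ∀ (U : Set R4) (y₀ : R4) (f : R4 → R4), IsOpen U → y₀ ∈ U →
    (∀ᶠ y in 𝓝 y₀, ContDiffAt ℝ ∞ f y) → f y₀ = y₀ →
    (∀ᶠ y in 𝓝 y₀, y.2 = 0 → (f y).2 = 0) →
    ‖fderiv ℝ f y₀ - ContinuousLinearMap.id ℝ R4‖ < c → RealL U y₀ f

/-- **GLL** (linear maps which preserve the line) (uses `StSML`, `StGL`).
*Proof.* Let `P A` be the statement `∀ U z, IsOpen U → z ∈ U → z.2 = 0 → RealL U z (fun y => z + A (y - z))`.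
(0) `P A`, `P B` imply `P (A ∘ B)`: compose the two families (`DFam.comp`, see `m_TR`), the supports are compact in `U`, the line condition is transitive; both
germs fix `z`.  (1) `P A` if `‖A - id‖ < c` and `A` preserves the line: `StSML`.
(2) Write `A (σ, v) = (a σ + l v, M v)`, `a = (A (1, 0)).1 > 0`, `l v = (A (0, v)).1`, `M v = (A (0, v)).2`.  `A = S ∘ D_a ∘ D_M` with `D_M (σ, v) = (σ, M v)`,
`D_a (σ, v) = (a σ, v)`, `S (σ, v) = (σ + l' v, v)`, `l' = l ∘ M⁻¹` (`M` is invertible because `A` is: if `M v = 0` then `A (- l v / a, v) = 0`; so `v = 0`).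
(3) `P D_M` for all `M : R3 →L R3` with `0 < M.det`: `StGL` for `E = R3` and the property `M ↦ P D_M` (multiplicative by (0), true near the identity by
(1): `‖D_M - id‖ ≤ ‖M - id‖`).  (4) `P D_a` for `a > 0`: `StGL` for `E = ℝ` and `P' A' := P (D_{A' 1})` (or: `D_a = (D_{a^(1/n)})^n`).
(5) `P S_l` for all `l : R3 →L ℝ`: `S_l = (S_{l/n})^n`, near the identity for large `n`; induction on the number of factors.
(6) `0 < M.det`: `M.det ≠ 0`; `A.det = S.det * D_a.det * D_M.det`, with `S = S_{l'/2} ∘ S_{l'/2}` and `D_a = D_√a ∘ D_√a` of positive determinant (squares, invertible), and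
`D_M.det = M.det` (`LinearMap.det_prodMap`, or: if `M.det < 0` choose the reflection `ρ (a, w) = (-a, w)` of `R3`; `(ρ M).det > 0`, so `D_{ρ M}` is a product of maps near the identity (property `0 < D_M.det` in
`StGL` for `E = R3`: multiplicative, true near the identity by continuity of the determinant), so `0 < (D_ρ).det * (D_M).det`, and `(D_ρ).det < 0`, so `D_M.det < 0`, contradiction). -/
def StGLL : Prop :=
  ∀ (A : R4 →L[ℝ] R4) (U : Set R4) (z : R4), IsOpen U → z ∈ U → z.2 = 0 →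
    (∀ s : ℝ, (A (s, 0)).2 = 0) → 0 < (A (1, 0)).1 → 0 < A.det →
    RealL U z (fun y => z + A (y - z))

/-- **LOCL** (germs which preserve the line) (uses `StSML`, `StGLL`).
*Proof.* Compare `Pool/Agent/Helper70/BI/M_LOC.lean`.  `L = fderiv ℝ h z` is invertible (`0 < L.det`), let `K = L⁻¹`.  `(L (s, 0)).2 = 0`: differentiate `s ↦ (h (z + (s, 0))).2`, which is `0` near `s = 0`
(`z.2 = 0`).  `k y = z + K (h y - z)`: smooth near `z`, `k z = z`, `fderiv k z = K ∘ L = id`; it preserves the line near `z`: `L (1, 0) = (a, 0)`, `a > 0`, so `K (s, 0) = (s / a, 0)`.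
`StSML`: `RealL U z k`.  `StGLL` for `L`: `RealL U z (fun y => z + L (y - z))`.  Compose (`DFam.comp`, see `m_TR`; `k` is continuous at `z`): `z + L (k y - z) = h y`. -/
def StLOCL : Prop :=
  ∀ (U : Set R4) (z : R4) (h : R4 → R4), IsOpen U → z ∈ U → z.2 = 0 → LD h z → h z = z →
    (∀ᶠ y in 𝓝 z, y.2 = 0 → (h y).2 = 0) → 0 < (fderiv ℝ h z (1, 0)).1 →
    0 < (fderiv ℝ h z).det → RealL U z h

/-- `T` is a germ of an embedding at `z0`, which maps the vertical line through `z0` into the base arc. -/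
structure StrA (D : ArcD) (T : R4 → R4) (σ : ℝ → ℝ) (ε : ℝ) : Prop where
  pos : 0 < ε
  loc : ∀ p ∈ Metric.ball z0 ε, LD T p
  inj : InjOn T (Metric.ball z0 ε)
  smooth : ContDiffAt ℝ ∞ σ (1 / 2)
  dpos : 0 < deriv σ (1 / 2)
  lo : D.s₀ < σ (1 / 2)
  hi : σ (1 / 2) < D.s₁
  str : ∀ᶠ s in 𝓝 (1 / 2 : ℝ), T (s, ((0 : ℝ), (0 : ℂ))) = D.J (σ s, 0)
  orient : 0 < (fderiv ℝ T z0).det * (fderiv ℝ D.J (σ (1 / 2), 0)).det

/-- **CEN** (centring) (uses `StLOCL`).
*Proof.* (1) There is `r ∈ (0, ε)` such that `T p ∈ D.A` implies `p.2 = 0` for `p ∈ ball z0 r`.  The set `S = {s | T (s, 0) = D.J (σ s, 0), (s, 0) ∈ ball z0 ε}` is a neighbourhood of `1/2`; `σ` has a nonzero strict derivative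
at `1/2`, so `σ '' S` is a neighbourhood of `σ (1/2)` (`HasStrictDerivAt.map_nhds_eq`), it contains an open set `O ∋ σ (1/2)`.  `K = D.J '' {p ∈ D.L | p.1 ∉ O}` is compact (`D.J` is continuous at the points of the compact set `D.L`), and does not contain
`T z0 = D.J (σ (1/2), 0)` (`D.J` is injective on `D.L`), so `T p ∉ K` for `p` near `z0`.  If moreover `T p ∈ D.A = D.J '' D.L` then `T p = D.J (a, 0)` with `a ∈ O`, so `a = σ s`, `s ∈ S`, `T p = T (s, 0)`, and `p = (s, 0)` by `inj`.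
(2) Let `f` be a local inverse of `T` at `z0` (`IsLocalDiffeomorphAt.localInverse`) and `h p = f (D.J (σ (1/2) + (p.1 - 1/2), p.2))`.  At `p = z0` the argument of `f` is `D.J (σ (1/2), 0) = T z0` (`str` at `1/2`), so `h z0 = z0`, `LD h z0`
(`D.J` is a local diffeomorphism at `(σ (1/2), 0) ∈ D.L`; composition of local diffeomorphisms), and `T (h p) = D.J (σ (1/2) + (p.1 - 1/2), p.2)` near `z0`.  The chain rule gives
`(fderiv T z0).det * (fderiv h z0).det = (fderiv D.J (σ (1/2), 0)).det`, so `0 < (fderiv h z0).det` by `orient`.  For `p` near `z0` with `p.2 = 0`: `T (h p) = D.J (.., 0) ∈ D.A` (`lo`, `hi`) and `h p ∈ ball z0 r`, so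
`(h p).2 = 0` by (1).  So `h (s, 0) = (κ s, 0)` near `s = 1/2`, `D.J (σ (κ s), 0) = T (κ s, 0) = D.J (σ (1/2) + (s - 1/2), 0)`, and `σ (κ s) = σ (1/2) + (s - 1/2)` (injectivity on `D.L`); differentiate:
`σ' (1/2) κ' (1/2) = 1`, so `0 < κ' (1/2) = (fderiv h z0 (1, 0)).1`.
(3) `StLOCL` for `U = ball z0 r`, `z = z0`: `R`.  Near `z0`: `T (R.f (1, p)) = T (h p)`. -/
def StCEN : Prop :=
  ∀ (D : ArcD) (T : R4 → R4) (σ : ℝ → ℝ) (ε : ℝ), StrA D T σ ε →
    ∃ (R : DFam I4 R4) (r : ℝ), 0 < r ∧ r < ε ∧ (∀ y, R.f (0, y) = y) ∧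
      (∃ C : Set R4, IsCompact C ∧ C ⊆ Metric.ball z0 r ∧ ∀ t y, y ∉ C → R.f (t, y) = y) ∧
      (∀ t y, (R.f (t, y)).2 = 0 ↔ y.2 = 0) ∧
      (∀ p ∈ Metric.ball z0 r, T p ∈ D.A → p.2 = 0) ∧
      ∀ᶠ p in 𝓝 z0, T (R.f (1, p)) = D.J (σ (1 / 2) + (p.1 - 1 / 2), p.2)

/-- `T` is a germ along the spine, disjoint from the base arc, whose cuffs are small linking spheres of the base arc,
of radius `lam / 5`, around the points with parameters `a`, `b`. -/
structure NC (D : ArcD) (a b lam : ℝ) (T : R4 → R4) : Prop where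
  emb : EmbOn I4 T SP
  off : ∀ p ∈ SP, T p ∈ D.U \ D.A
  c0 : ∀ p ∈ sph 0, ∀ᶠ q in 𝓝 p, T q = D.J (a + (q.1 - 1 / 2), lam • q.2)
  c1 : ∀ p ∈ sph 1, ∀ᶠ q in 𝓝 p, T q = D.J (b + (q.1 - 1 / 2), lam • (q.2 - pc 1))

/-- **NCT** (crossing germs are equivalent to germs with small round cuffs) (uses `StCEN`, `StCL`, `StFam`, `StDET`, `StA1`).
*Proof.* Write `zc = (1/2, pc c)`, `c = 0, 1`, `Tc p = T (p + (0, pc c))`.  `StA1`: `T` is an injective local diffeomorphism on an open `V ⊇ FB`; shrink `V` so that `T '' V ⊆ D.U`.  Choose `ε < 1/10` with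
`ball z0 ε ⊆ V`, `ball z1 ε ⊆ V`.  `XG.str` gives `StrA D T0 σ ε`, `StrA D T1 τ ε`, `a = σ (1/2)`, `b = τ (1/2)`; `orient` for `T1`: the signs of `(fderiv T ·).det` at `z0`, `z1` agree (`StDET` for `FB`, the local
diffeomorphisms have nonzero determinant), and the signs of `(fderiv D.J ·).det` at `(σ (1/2), 0)`, `(τ (1/2), 0)` agree (`seg` is convex, same proof as `M_DET.lean`).
`StCEN`: `R0, r0`, `R1, r1`.  `R1' (t, p) = R1.f (t, p - (0, pc 1)) + (0, pc 1)`.  For `lam ∈ (0, 1]` let `l t = 1 - t (1 - lam)`, `k (t, p) = clc 0 (l t) (clc 1 (l t) p)`, `m (t, p) = R0.f (t, R1' (t, k (t, p)))`,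
`J (t, p) = D.e (T (m (t, p)))`, `T₁ p = T (m (1, p))`.
(A) For `t ∈ [0, 1]`, `p ∈ SP`: `k (t, p) ∈ FB \ {z0, z1}`: on `sph 0`: `clc 1` is the identity and `clc 0` multiplies `x` by `l t`; on `sph 1`: `clc 1` maps `p` to `(1/2, pc 1 + l t (x - pc 1)) ∈ flat 1`, where `clc 0` is the
identity (`9/100 ≤ rsq 0`); `ax a`, `a ∈ [1/5, 4/5]`, goes to `ax b₁`, `b₁ = 1 + cfac (..) (a - 1) ∈ [a, 1)` and then to `ax b₂`, `b₂ = cfac (..) b₁ ∈ (0, b₁]` (`0 < l t ≤ cfac ≤ 1`); all `ax b` with `0 < b < 1` are in `FB \ {z0, z1}`.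
(B) Let `q ∈ FB \ {z0, z1}`.  If `q ∈ ball z1 r1` then `R1' (t, q) ∈ ball z1 r1` (a diffeomorphism which is the identity off a subset of the ball maps the ball to itself) and `(R1' (t, q)).2 ≠ pc 1` because `q.1 = 1/2`, `q ≠ z1`, so
`q.2 ≠ pc 1`; `T (R1' (t, q)) ∉ D.A` by `StCEN`; `R0` is the identity on `ball z1 r1` (`r0, r1 < 1/10`).  Otherwise `R1' (t, q) = q`; if `q ∈ ball z0 r0` the same argument applies to `R0`; otherwise `m = q`, `T q ∉ D.A` by `XG.arc`.  So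
`T (R0.f (t, R1' (t, q))) ∈ D.U \ D.A` and `R0.f (t, R1' (t, q)) ∈ V`.
(C) `J` is `FamOn SP` (`famOn_iff`): `m` is smooth on `ℝ × R4` (`StCL`, `contDiff_dfam`), each `m (t, ·)`, `t ∈ [0, 1]`, is an injective local diffeomorphism; `T` is one on `V`, `D.e` on `D.U \ D.A` (open: `D.A` is compact).  See `famOn_comp`, `famOn_of_contDiff`,
`famOn_const` in `Base.lean`.  `m (0, p) = p`.  `StFam`: `Eqv (D.e ∘ T) (D.e ∘ T₁)`.  `emb`, `off` of `NC`: the same at `t = 1` without `D.e`.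
(D) `c0`: let `δ > 0` be such that `T (R0.f (1, q)) = D.J (a + (q.1 - 1/2), q.2)` for `‖q - z0‖ < δ` and the analogous formula holds for `R1`, `δ ≤ r0, r1`.  `lam₀ = δ` works: near `p ∈ sph 0`, `k (1, q) = (q.1, lam • q.2)` (`rsq 0 q < 1/20`, `9/100 ≤ rsq 1 q`), which is in `ball z0 δ`
(`‖q.2‖ ≤ 1/2`, `|q.1 - 1/2| < δ`), and `R1'` is the identity there.  `c1`: near `p ∈ sph 1`, `k (1, q) = (q.1, pc 1 + lam • (q.2 - pc 1))`, `R1' (1, ·)` of this is near `z1`, where `R0` is the identity, and `T (R1' (1, ·)) = T1 (R1.f (1, (q.1, lam • (q.2 - pc 1))))`. -/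
def StNCT : Prop :=
  ∀ (D : ArcD) (T : R4 → R4), D.XG T → ∃ a b lam₀ : ℝ, D.s₀ < a ∧ a < b ∧ b < D.s₁ ∧
    0 < lam₀ ∧ ∀ lam ∈ Ioo (0 : ℝ) lam₀, ∃ T₁ : R4 → R4, NC D a b lam T₁ ∧
      Eqv (fun p => D.e (T p)) (fun p => D.e (T₁ p))

/-- **SLD** (sliding along the base arc) (uses `StRM`, `StA1`).
*Proof.* (1) There is a smooth `m : ℝ → ℝ`, `m' > 0`, `m s = s` for `s ≤ s₀ + η` and `s ≥ s₁ - η`, `m s = s + (a' - a)` near `a`, `m s = s + (b' - b)` near `b`: `StRM` (2) for `(1/5, 4/5)`, conjugated with the affine bijection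
`x ↦ s₀ + (5/3) (s₁ - s₀) (x - 1/5)` from `(1/5, 4/5)` to `(s₀, s₁)`.  Decrease `η`.
(2) `D.J` is an injective local diffeomorphism on an open set `V ⊇ D.L` (`StA1`).  For `s ∈ [s₀ + η, s₁ - η]` we have `D.J (s, 0) = D.c s ∈ D.U`; by compactness there is `ρ > 0` such that `K = {p | s₀ + η ≤ p.1 ≤ s₁ - η, ‖p.2‖ ≤ ρ}` satisfies `K ⊆ V`, `D.J '' K ⊆ D.U`.
(3) `χ : R3 → ℝ` smooth with values in `[0, 1]`, `χ x = 1` for `‖x‖ < ρ/3`, `χ x = 0` for `‖x‖ ≥ ρ/2` (`ContDiffBump`).  `Σ (t, (s, x)) = (s + t χ x (m s - s), x)`: for `t ∈ [0, 1]` an injective local diffeomorphism of `R4`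
(`∂/∂s = (1 - tχ) + tχ m' > 0`), the identity off `K`, maps `K` onto `K` (for fixed `x` it is increasing in `s` and fixes the ends), preserves the line `{x = 0}` and its complement.
(4) `S (t, y) = D.J (Σ (t, p))` if `y = D.J p`, `p ∈ K`, and `S (t, y) = y` if `y ∉ D.J '' K`.  Smooth: near a point `(t, y)` with `y ∈ D.J '' V` it is `D.J ∘ Σ (t, ·) ∘ δ⁻¹` with the partial diffeomorphism `δ` of `StA1` (also for `p ∈ V \ K`, where `Σ (t, p) = p`), and
`D.J '' K` is closed, off it `S (t, y) = y`.  (Here `Σ (t, p)` must be in `V`: `Σ (t, ·)` maps `K` to itself and `Σ (t, p) = p` off `K`; to have this also for `t ∉ [0, 1]`, use `step t` instead of `t`.)  For `t ∈ [0, 1]` it is injective and a local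
diffeomorphism (the same formulas).
(5) `S (t, y) ∈ D.A` implies `y ∈ D.A`: if `y ∉ D.J '' K` this is clear; if `y = D.J p`, `p ∈ K`, then `D.J (Σ (t, p)) ∈ D.J '' D.L`, `Σ (t, p) ∈ D.L` (injectivity on `V`), so `p.2 = 0`, `p ∈ D.L`.  `S (t, y) ∈ D.U` for `y ∈ D.U`, as `D.J '' K ⊆ D.U`.
(6) The last two claims: `δ ≤ ρ/3`, and for `|s - a| < δ`: `m s = s + (a' - a)`; if `(s, x) ∉ K` (`‖x‖ < ρ`) then `m s = s` and `S (1, D.J (s, x)) = D.J (s, x)` (choose `δ` with `{(s, x) | |s - a| < δ, ‖x‖ < δ} ⊆ V`), consistent. -/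
def StSLD : Prop :=
  ∀ (D : ArcD) (a b a' b' : ℝ), D.s₀ < a → a < b → b < D.s₁ → D.s₀ < a' → a' < b' → b' < D.s₁ →
    ∃ (S : ℝ × R4 → R4) (δ : ℝ), ContDiff ℝ ∞ S ∧ (∀ y, S (0, y) = y) ∧ 0 < δ ∧
      (∀ t ∈ Icc (0 : ℝ) 1, EmbOn I4 (fun y => S (t, y)) univ) ∧
      (∀ t ∈ Icc (0 : ℝ) 1, ∀ y ∈ D.U \ D.A, S (t, y) ∈ D.U \ D.A) ∧
      (∀ p : R4, |p.1 - a| < δ → ‖p.2‖ < δ → S (1, D.J p) = D.J (p.1 + (a' - a), p.2)) ∧
      ∀ p : R4, |p.1 - b| < δ → ‖p.2‖ < δ → S (1, D.J p) = D.J (p.1 + (b' - b), p.2)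

end Pool.Agent.Helper70.H
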